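import Pool.Agent.Helper78.HP.RevAlt

/-! # Algebra of the correlation defined by a triangle and its poles -/

open scoped Affine Topology
open Filter

namespace Pool.Agent.Helper78.HP

variable {K : Set Plane}

/-- pairing of a covector with a vector -/
def dot (u m : Fin 3 → ℝ) : ℝ := u 0 * m 0 + u 1 * m 1 + u 2 * m 2

theorem dot_comm (u m : Fin 3 → ℝ) : dot u m = dot m u := by unfold dot; ring

theorem dot_hom (u : Cov) (p : Plane) : dot u (hom p) = ev u p := by
  unfold dot ev; simp

theorem cramer (p q r m : Fin 3 → ℝ) (i : Fin 3) :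
    det3 p q r * m i = det3 m q r * p i + det3 p m r * q i + det3 p q m * r i := by
  unfold det3
  fin_cases i <;> simp <;> ring

theorem cramer_dot (p q r m u : Fin 3 → ℝ) :
    det3 p q r * dot u m = det3 m q r * dot u p + det3 p m r * dot u q + det3 p q m * dot u r := by
  unfold dot
  linear_combination u 0 * cramer p q r m 0 + u 1 * cramer p q r m 1 + u 2 * cramer p q r m 2

/-- The correlation sending `x, y, z` to multiples of `p, q, r`. -/
def Qv (x y z p q r u : Fin 3 → ℝ) : Fin 3 → ℝ :=
  fun i => det3 u y z * p i + det3 x u z * q i + det3 x y u * r i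

theorem dot_Qv (x y z p q r u v : Fin 3 → ℝ) :
    dot v (Qv x y z p q r u) =
      det3 u y z * dot v p + det3 x u z * dot v q + det3 x y u * dot v r := by
  unfold dot Qv; ring

theorem Qv_symm {x y z p q r : Fin 3 → ℝ} (hD : det3 x y z ≠ 0) (h1 : dot y p = dot x q)
    (h2 : dot z p = dot x r) (h3 : dot z q = dot y r) (u v : Fin 3 → ℝ) :
    dot v (Qv x y z p q r u) = dot u (Qv x y z p q r v) := by
  have ep := cramer_dot x y z v p
  have eq := cramer_dot x y z v q
  have er := cramer_dot x y z v r
  have fp := cramer_dot x y z u p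
  have fq := cramer_dot x y z u q
  have fr := cramer_dot x y z u r
  have key : det3 x y z * dot v (Qv x y z p q r u) = det3 x y z * dot u (Qv x y z p q r v) := by
    rw [dot_Qv, dot_Qv]
    rw [dot_comm v p, dot_comm v q, dot_comm v r, dot_comm u p, dot_comm u q, dot_comm u r]
    rw [dot_comm p x, dot_comm p y, dot_comm p z] at ep fp
    rw [dot_comm q x, dot_comm q y, dot_comm q z] at eq fq
    rw [dot_comm r x, dot_comm r y, dot_comm r z] at er fr
    rw [h1, h2] at ep fp
    rw [h3] at eq fq
    linear_combination det3 u y z * ep + det3 x u z * eq + det3 x y u * er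
      - det3 v y z * fp - det3 x v z * fq - det3 x y v * fr
  exact mul_left_cancel₀ hD key

theorem det3_Qv_left (x y z p q r t : Fin 3 → ℝ) :
    det3 (Qv x y z p q r t) q r = det3 t y z * det3 p q r := by
  have hQ : ∀ i, Qv x y z p q r t i = det3 t y z * p i + det3 x t z * q i + det3 x y t * r i :=
    fun _ => rfl
  generalize det3 t y z = a at hQ ⊢
  generalize det3 x t z = b at hQ ⊢
  generalize det3 x y t = c at hQ ⊢
  unfold det3
  rw [hQ 0, hQ 1, hQ 2]
  ring

theorem det3_Qv_mid (x y z p q r t : Fin 3 → ℝ) :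
    det3 p (Qv x y z p q r t) r = det3 x t z * det3 p q r := by
  have hQ : ∀ i, Qv x y z p q r t i = det3 t y z * p i + det3 x t z * q i + det3 x y t * r i :=
    fun _ => rfl
  generalize det3 t y z = a at hQ ⊢
  generalize det3 x t z = b at hQ ⊢
  generalize det3 x y t = c at hQ ⊢
  unfold det3
  rw [hQ 0, hQ 1, hQ 2]
  ring

theorem det3_Qv_right (x y z p q r t : Fin 3 → ℝ) :
    det3 p q (Qv x y z p q r t) = det3 x y t * det3 p q r := by
  have hQ : ∀ i, Qv x y z p q r t i = det3 t y z * p i + det3 x t z * q i + det3 x y t * r i :=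
    fun _ => rfl
  generalize det3 t y z = a at hQ ⊢
  generalize det3 x t z = b at hQ ⊢
  generalize det3 x y t = c at hQ ⊢
  unfold det3
  rw [hQ 0, hQ 1, hQ 2]
  ring

theorem Qv_Qv (x y z p q r t : Fin 3 → ℝ) (i : Fin 3) :
    Qv p q r x y z (Qv x y z p q r t) i = det3 p q r * det3 x y z * t i := by
  have h : Qv p q r x y z (Qv x y z p q r t) i =
      det3 (Qv x y z p q r t) q r * x i + det3 p (Qv x y z p q r t) r * y i +
        det3 p q (Qv x y z p q r t) * z i := rfl
  rw [h, det3_Qv_left, det3_Qv_mid, det3_Qv_right]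
  have := cramer x y z t i
  linear_combination (-det3 p q r) * this

/-- The pole of a chord. -/
def SChord.P (c : SChord K) : Fin 3 → ℝ :=
  ![c.α 1 * c.β 2 - c.α 2 * c.β 1, c.α 2 * c.β 0 - c.α 0 * c.β 2, c.α 0 * c.β 1 - c.α 1 * c.β 0]

theorem SChord.dot_P (c : SChord K) (y : Cov) : dot y c.P = c.B y := by
  unfold dot SChord.P SChord.B det3; simp; ring

theorem SChord.P_α (c : SChord K) : dot c.α c.P = 0 := by
  unfold dot SChord.P; simp; ring

theorem SChord.P_β (c : SChord K) : dot c.β c.P = 0 := by
  unfold dot SChord.P; simp; ring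

theorem SChord.P_ne (hK : IsHilbertDomain K) (c : SChord K) : c.P ≠ 0 := by
  intro h
  have h0 := congrFun h 0
  have h1 := congrFun h 1
  have h2 := congrFun h 2
  simp [SChord.P] at h0 h1 h2
  -- α and β are parallel; evaluate at I
  have e1 := c.hα.1
  have e2 : 0 < ev c.β c.I := c.hβ.pos hK c.hJ.1.1 c.hI.1.1 c.ne
  unfold ev at e1 e2
  have a0 : c.α 0 = 0 := by
    have : c.α 0 * (c.β 0 * c.I 0 + c.β 1 * c.I 1 + c.β 2) = 0 := by
      linear_combination c.β 0 * e1 + c.I 1 * h2 - h1
    rcases mul_eq_zero.mp this with h' | h'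
    · exact h'
    · linarith
  have a1 : c.α 1 = 0 := by
    have : c.α 1 * (c.β 0 * c.I 0 + c.β 1 * c.I 1 + c.β 2) = 0 := by
      linear_combination c.β 1 * e1 - c.I 0 * h2 + h0
    rcases mul_eq_zero.mp this with h' | h'
    · exact h'
    · linarith
  exact c.hα.lin_ne hK ⟨a0, a1⟩

/-- The Chasles relation, assuming nonzero determinant of the side lines. -/
theorem chasles' (hK : IsHilbertDomain K) (h : RevAltHyp K) (a b c : SChord K) {A B C : Plane}
    (hA : A ∈ K) (hB : B ∈ K) (hC : C ∈ K) (hbA : ev b.x A = 0) (hcA : ev c.x A = 0)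
    (haB : ev a.x B = 0) (hcB : ev c.x B = 0) (haC : ev a.x C = 0) (hbC : ev b.x C = 0)
    (hD : det3 a.x b.x c.x ≠ 0) :
    dot c.x a.P * dot a.x b.P * dot b.x c.P = dot b.x a.P * dot c.x b.P * dot a.x c.P := by
  simp only [SChord.dot_P]
  apply chasles hK h a b c hA hB hC hbA hcA haB hcB haC hbC
  · intro h0; apply hD
    exact det3_zero_of_point h0 hbA hcA
  · intro h0; apply hD
    exact det3_zero_of_point haB h0 hcB
  · intro h0; apply hD
    exact det3_zero_of_point haC hbC h0

/-- Conclusion for a valid line `u` with pole `P`: every covector through the pole is conjugate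
to `u`. -/
theorem conj_of_relations {x y z p q r u P t : Fin 3 → ℝ} (hD : det3 x y z ≠ 0) (hP : P ≠ 0)
    (v1 : dot y P * dot u p = dot x P * dot u q)
    (v2 : dot z P * dot u q = dot y P * dot u r)
    (v3 : dot x P * dot u r = dot z P * dot u p) (ht : dot t P = 0) :
    dot u (Qv x y z p q r t) = 0 := by
  have hsum : det3 t y z * dot x P + det3 x t z * dot y P + det3 x y t * dot z P = 0 := by
    have := cramer_dot x y z t P
    rw [dot_comm P t, ht, mul_zero, dot_comm P x, dot_comm P y, dot_comm P z] at this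
    linarith
  rw [dot_Qv]
  by_contra hne
  apply hP
  have kx : dot x P = 0 := by
    have : dot x P * (det3 t y z * dot u p + det3 x t z * dot u q + det3 x y t * dot u r) = 0 := by
      linear_combination dot u p * hsum - det3 x t z * v1 + det3 x y t * v3
    rcases mul_eq_zero.mp this with h' | h'
    · exact h'
    · exact absurd h' hne
  have ky : dot y P = 0 := by
    have : dot y P * (det3 t y z * dot u p + det3 x t z * dot u q + det3 x y t * dot u r) = 0 := by
      linear_combination dot u q * hsum + det3 t y z * v1 - det3 x y t * v2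
    rcases mul_eq_zero.mp this with h' | h'
    · exact h'
    · exact absurd h' hne
  have kz : dot z P = 0 := by
    have : dot z P * (det3 t y z * dot u p + det3 x t z * dot u q + det3 x y t * dot u r) = 0 := by
      linear_combination dot u r * hsum - det3 t y z * v3 + det3 x t z * v2
    rcases mul_eq_zero.mp this with h' | h'
    · exact h'
    · exact absurd h' hne
  -- P = 0 by Cramer (dual form)
  unfold dot at kx ky kz
  have e0 : det3 x y z * P 0 = 0 := by
    unfold det3
    linear_combination (y 1 * z 2 - y 2 * z 1) * kx - (x 1 * z 2 - x 2 * z 1) * ky +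
      (x 1 * y 2 - x 2 * y 1) * kz
  have e1 : det3 x y z * P 1 = 0 := by
    unfold det3
    linear_combination (-(y 0 * z 2 - y 2 * z 0)) * kx + (x 0 * z 2 - x 2 * z 0) * ky -
      (x 0 * y 2 - x 2 * y 0) * kz
  have e2 : det3 x y z * P 2 = 0 := by
    unfold det3
    linear_combination (y 0 * z 1 - y 1 * z 0) * kx - (x 0 * z 1 - x 1 * z 0) * ky +
      (x 0 * y 1 - x 1 * y 0) * kz
  ext i
  fin_cases i
  · simpa [hD] using e0
  · simpa [hD] using e1
  · simpa [hD] using e2

end Pool.Agent.Helper78.HP
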