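import Pool.Agent.Helper78.HP.Valid

/-! # The boundary lies on a conic, and is an ellipse -/

open scoped Affine Topology
open Filter

namespace Pool.Agent.Helper78.HP

variable {K : Set Plane}

theorem Qv_smul (x y z p q r m : Fin 3 → ℝ) (k : ℝ) (i : Fin 3) :
    Qv x y z p q r (k • m) i = k * Qv x y z p q r m i := by
  simp only [Qv, det3, Pi.smul_apply, smul_eq_mul]
  ring

/-- There is a quadratic polynomial, not vanishing at some point of `K`, that vanishes on the
boundary away from finitely many lines, at smooth points. -/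
theorem exists_conic_smooth (hK : IsHilbertDomain K) (h : RevAltHyp K) :
    ∃ (a b c : SChord K) (x y z p q r : Fin 3 → ℝ),
      (∃ O ∈ K, dot (Qv p q r x y z (hom O)) (hom O) ≠ 0) ∧
      ∀ I, IsSmooth K I → ev a.x I ≠ 0 → ev b.x I ≠ 0 → ev c.x I ≠ 0 →
        dot (Qv p q r x y z (hom I)) (hom I) = 0 := by
  obtain ⟨a, b, c, A, B, C, hT, nz1, nz2, nz3, nz4, nz5, nz6, hE⟩ := exists_base hK
  set l := dot b.x a.P / dot a.x b.P with hl
  set m := dot c.x a.P / dot a.x c.P with hm
  have hl0 : l ≠ 0 := div_ne_zero nz1 nz2
  have hm0 : m ≠ 0 := div_ne_zero nz3 nz5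
  set x := a.x with hx
  set y := b.x with hy
  set z := c.x with hz
  set p := a.P with hp
  set q := l • b.P with hq
  set r := m • c.P with hr
  have dq : ∀ u, dot u q = l * dot u b.P := by
    intro u; rw [hq]; simp [dot]; ring
  have dr : ∀ u, dot u r = m * dot u c.P := by
    intro u; rw [hr]; simp [dot]; ring
  have s1 : dot y p = dot x q := by
    rw [dq, hl, div_mul_cancel₀ _ nz2]
  have s2 : dot z p = dot x r := by
    rw [dr, hm, div_mul_cancel₀ _ nz5]
  have base := chasles' hK h a b c hT.hA hT.hB hT.hC hT.hbA hT.hcA hT.haB hT.hcB hT.haC hT.hbC hT.hD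
  have s3 : dot z q = dot y r := by
    rw [dq, dr]
    have e1 : l * dot x b.P = dot y a.P := by rw [hl, div_mul_cancel₀ _ nz2]
    have e2 : m * dot x c.P = dot z a.P := by rw [hm, div_mul_cancel₀ _ nz5]
    have : dot x b.P * dot x c.P * (l * dot z b.P) = dot x b.P * dot x c.P * (m * dot y c.P) := by
      linear_combination -base + (dot z b.P * dot x c.P) * e1 - (dot x b.P * dot y c.P) * e2
    exact mul_left_cancel₀ (mul_ne_zero nz2 nz5) this
  have hD : det3 x y z ≠ 0 := hT.hD
  have hE' : det3 p q r ≠ 0 := by
    have : det3 p q r = l * m * det3 a.P b.P c.P := by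
      rw [hq, hr, hp]; simp [det3]; ring
    rw [this]
    exact mul_ne_zero (mul_ne_zero hl0 hm0) hE
  refine ⟨a, b, c, x, y, z, p, q, r, ?_, ?_⟩
  · by_contra hcon
    push Not at hcon
    -- polarization
    have gsym : ∀ m1 m2, dot (Qv p q r x y z m1) m2 = dot (Qv p q r x y z m2) m1 := by
      intro m1 m2
      have := Qv_symm (x := p) (y := q) (z := r) (p := x) (q := y) (r := z) hE'
        (by rw [dot_comm, dot_comm p]; exact s1.symm) (by rw [dot_comm, dot_comm p]; exact s2.symm)
        (by rw [dot_comm, dot_comm q]; exact s3.symm) m1 m2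
      rw [dot_comm, this, dot_comm]
    have gzero : ∀ P ∈ K, ∀ Q ∈ K, dot (Qv p q r x y z (hom P)) (hom Q) = 0 := by
      intro P hP Q hQ
      have hmid : P + (1 / 2 : ℝ) • (Q - P) ∈ K :=
        combo_mem hK (subset_closure hP) hQ (by norm_num) (by norm_num)
      have e1 := hcon _ hmid
      have e2 := hcon _ hP
      have e3 := hcon _ hQ
      have e4 := gsym (hom P) (hom Q)
      have hh : ∀ i, hom (P + (1 / 2 : ℝ) • (Q - P)) i = (1 / 2) * hom P i + (1 / 2) * hom Q i := by
        intro i; fin_cases i
        · simp; ring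
        · simp; ring
        · simp; norm_num
      have e5 : dot (Qv p q r x y z (hom (P + (1 / 2 : ℝ) • (Q - P))))
          (hom (P + (1 / 2 : ℝ) • (Q - P))) =
          (1 / 4) * (dot (Qv p q r x y z (hom P)) (hom P) + dot (Qv p q r x y z (hom P)) (hom Q)
          + dot (Qv p q r x y z (hom Q)) (hom P) + dot (Qv p q r x y z (hom Q)) (hom Q)) := by
        simp only [dot, Qv, det3, hh]
        ring
      rw [e1, e2, e3, ← e4] at e5
      linarith
    have f1 := gzero A hT.hA A hT.hA
    have f2 := gzero A hT.hA B hT.hB
    have f3 := gzero A hT.hA C hT.hC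
    rw [dot_comm, dot_Qv, dot_comm _ x, dot_comm _ y, dot_comm _ z, dot_hom, dot_hom, dot_hom] at f1 f2 f3
    rw [hT.hbA, hT.hcA] at f1
    rw [hT.haB, hT.hcB] at f2
    rw [hT.haC, hT.hbC] at f3
    have g1 : det3 (hom A) q r = 0 := by
      have : det3 (hom A) q r * ev x A = 0 := by linarith
      rcases mul_eq_zero.mp this with h' | h'
      · exact h'
      · exact absurd h' hT.evA
    have g2 : det3 p (hom A) r = 0 := by
      have : det3 p (hom A) r * ev y B = 0 := by linarith
      rcases mul_eq_zero.mp this with h' | h'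
      · exact h'
      · exact absurd h' hT.evB
    have g3 : det3 p q (hom A) = 0 := by
      have : det3 p q (hom A) * ev z C = 0 := by linarith
      rcases mul_eq_zero.mp this with h' | h'
      · exact h'
      · exact absurd h' hT.evC
    have := cramer p q r (hom A) 2
    rw [g1, g2, g3] at this
    simp at this
    exact hE' this
  · intro I hI hIa hIb hIc
    obtain ⟨t, ht⟩ := exists_support hK hI.1
    obtain ⟨w1, w2, e11, e12, e21, e22, v1, v2, hd⟩ := exists_valid hK hT hI ht hIa hIb hIc
    have conj : ∀ w : SChord K, w.α = t → ValidW K a b c w A B C →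
        dot w.x (Qv x y z p q r t) = 0 := by
      intro w hwα hv
      apply conj_of_relations hD (w.P_ne hK) (P := w.P)
      · have := valid_relation hK h hT hv
        -- dot y P * dot u p * dot x b.P = dot x P * dot y p * dot u b.P
        rw [dq]
        have e1 : l * dot x b.P = dot y a.P := by rw [hl, div_mul_cancel₀ _ nz2]
        have e2 : dot y p = dot y a.P := rfl
        have h3 : dot x b.P * (dot y w.P * dot w.x p) =
            dot x b.P * (dot x w.P * (l * dot w.x b.P)) := by
          linear_combination this - (dot x w.P * dot w.x b.P) * e1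
        exact mul_left_cancel₀ nz2 h3
      · have := valid_relation hK h hT.rot hv.rot
        rw [dq, dr]
        have h3 : (dot z b.P * m) * (dot z w.P * (l * dot w.x b.P)) =
            (dot z b.P * m) * (dot y w.P * (m * dot w.x c.P)) := by
          have e3 : l * dot z b.P = m * dot y c.P := by rw [← dq, ← dr]; exact s3
          linear_combination (m * m) * this + (m * dot z w.P * dot w.x b.P) * e3
        exact mul_left_cancel₀ (mul_ne_zero nz4 hm0) h3
      · have := valid_relation hK h hT.rot.rot hv.rot.rot
        rw [dr]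
        have e2 : m * dot x c.P = dot z a.P := by rw [hm, div_mul_cancel₀ _ nz5]
        have h3 : dot z a.P * (dot x w.P * (m * dot w.x c.P)) =
            dot z a.P * (dot z w.P * dot w.x p) := by
          linear_combination m * this + (dot z w.P * dot w.x a.P) * e2
        exact mul_left_cancel₀ nz3 h3
      · rw [← hwα]; exact w.P_α
    have c1 := conj w1 e12 v1
    have c2 := conj w2 e22 v2
    set R := Qv x y z p q r t with hR
    have i1 : ev w1.x I = 0 := by rw [← e11]; exact ev_cov_left _ _
    have i2 : ev w2.x I = 0 := by rw [← e21]; exact ev_cov_left _ _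
    unfold dot at c1 c2
    unfold ev at i1 i2
    have r0 : R 0 = R 2 * I 0 := by
      have : (w1.x 0 * w2.x 1 - w1.x 1 * w2.x 0) * (R 0 - R 2 * I 0) = 0 := by
        linear_combination w2.x 1 * c1 - w1.x 1 * c2 - R 2 * w2.x 1 * i1 + R 2 * w1.x 1 * i2
      rcases mul_eq_zero.mp this with h' | h'
      · exact absurd h' hd
      · linarith
    have r1 : R 1 = R 2 * I 1 := by
      have : (w1.x 0 * w2.x 1 - w1.x 1 * w2.x 0) * (R 1 - R 2 * I 1) = 0 := by
        linear_combination w1.x 0 * c2 - w2.x 0 * c1 - R 2 * w1.x 0 * i2 + R 2 * w2.x 0 * i1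
      rcases mul_eq_zero.mp this with h' | h'
      · exact absurd h' hd
      · linarith
    have hRI : R = R 2 • hom I := by
      ext i; fin_cases i
      · simpa using r0
      · simpa using r1
      · simp
    have hQQ : ∀ i, R 2 * Qv p q r x y z (hom I) i = det3 p q r * det3 x y z * t i := by
      intro i
      rw [← Qv_smul, ← hRI, hR, Qv_Qv]
    have hR2 : R 2 ≠ 0 := by
      intro h0
      apply ht.ne_zero hK
      ext i
      have := hQQ i
      rw [h0, zero_mul] at this
      rcases mul_eq_zero.mp this.symm with h' | h'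
      · exact absurd h' (mul_ne_zero hE' hD)
      · simpa using h'
    have hfin : R 2 * dot (Qv p q r x y z (hom I)) (hom I) = 0 := by
      have e1 : R 2 * dot (Qv p q r x y z (hom I)) (hom I) =
          det3 p q r * det3 x y z * ev t I := by
        rw [← dot_hom]
        unfold dot
        linear_combination hom I 0 * hQQ 0 + hom I 1 * hQQ 1 + hom I 2 * hQQ 2
      rw [e1, ht.1, mul_zero]
    rcases mul_eq_zero.mp hfin with h' | h'
    · exact absurd h' hR2
    · exact h'

end Pool.Agent.Helper78.HP
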