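import Mathlib

/-!
# Hilbert planes: distance, perpendicularity, reverse altitudes, pencils

Definitions used for problem MP_df1f63_gt.
-/

open scoped Affine

namespace Pool.Agent.Helper78.HP

/-- The Euclidean plane. -/
abbrev Plane := EuclideanSpace ℝ (Fin 2)

/-- The point set of a Hilbert plane: a nonempty bounded open convex set `K` of the plane whose
boundary is strictly convex. -/
structure IsHilbertDomain (K : Set Plane) : Prop where
  nonempty : K.Nonempty
  isOpen : IsOpen K
  convex : Convex ℝ K
  bounded : Bornology.IsBounded K
  strict : StrictConvex ℝ (closure K)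

/-- The point at which the ray from `P` through `Q` leaves `K`. -/
noncomputable def exitPoint (K : Set Plane) (P Q : Plane) : Plane :=
  P + sSup {t : ℝ | P + t • (Q - P) ∈ K} • (Q - P)

/-- The Hilbert distance `d(P,Q) = (1/2) log (|IQ| |PJ| / (|IP| |QJ|))` for `P ≠ Q`, where
`I = exitPoint K Q P` and `J = exitPoint K P Q` are the two points at which the line `PQ` meets
the boundary of `K`, in the order `I, P, Q, J`; and `d(P,P) = 0`. -/
noncomputable def hilbertDist (K : Set Plane) (P Q : Plane) : ℝ :=
  if P = Q then 0 else
    (1 / 2) * Real.log
      ((dist (exitPoint K Q P) Q * dist P (exitPoint K P Q)) /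
        (dist (exitPoint K Q P) P * dist Q (exitPoint K P Q)))

/-- A geodesic line of the Hilbert plane on `K`, given by the affine line `l` that carries it:
`l` is a line of the plane that meets `K` (the geodesic line itself is the chord `l ∩ K`). -/
def IsGeodesicLine (K : Set Plane) (l : AffineSubspace ℝ Plane) : Prop :=
  Module.finrank ℝ l.direction = 1 ∧ ∃ P ∈ l, P ∈ K

/-- `l` is perpendicular to `m`: they meet in a point `F` of `K` and every point `X` of the chord
on `l` has `F` as a nearest point on the chord on `m`. -/
def Perp (K : Set Plane) (l m : AffineSubspace ℝ Plane) : Prop :=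
  ∃ F ∈ K, F ∈ l ∧ F ∈ m ∧
    ∀ X ∈ K, X ∈ l → ∀ Y ∈ K, Y ∈ m → hilbertDist K X F ≤ hilbertDist K X Y

/-- `m` is a reverse altitude from `A` of the triangle `ABC`: a geodesic line through `A` such
that the side line `BC` is perpendicular to it. -/
def IsReverseAltitude (K : Set Plane) (A B C : Plane) (m : AffineSubspace ℝ Plane) : Prop :=
  IsGeodesicLine K m ∧ A ∈ m ∧ Perp K line[ℝ, B, C] m

/-- `m` is the reverse altitude from `A` of the triangle `ABC`: it is a reverse altitude from `A`,
and there is no other. -/
def IsTheReverseAltitude (K : Set Plane) (A B C : Plane) (m : AffineSubspace ℝ Plane) : Prop :=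
  IsReverseAltitude K A B C m ∧ ∀ m', IsReverseAltitude K A B C m' → m' = m

/-- Three lines of the plane form a pencil: their projective extensions have a common point,
that is, they have a common point in the plane or they are all parallel. -/
def IsPencil (l m n : AffineSubspace ℝ Plane) : Prop :=
  (∃ P, P ∈ l ∧ P ∈ m ∧ P ∈ n) ∨ (l ∥ m ∧ m ∥ n)

/-- An ellipse: the image of the unit circle under an affine bijection of the plane. -/
def IsEllipse (E : Set Plane) : Prop :=
  ∃ f : Plane ≃ᵃ[ℝ] Plane, E = f '' Metric.sphere 0 1

end Pool.Agent.Helper78.HP
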