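import Pool.Agent.Helper78.HP.Defs

/-! # Exit times and exit points -/

open scoped Affine Topology

namespace Pool.Agent.Helper78.HP

/-- Exit time of the ray `P + t v` from `K`. -/
noncomputable def exitTime (K : Set Plane) (P v : Plane) : ℝ := sSup {t : ℝ | P + t • v ∈ K}

variable {K : Set Plane}

theorem seg_closure_subset (hK : IsHilbertDomain K) {x y : Plane} (hx : x ∈ closure K)
    (hy : y ∈ K) : openSegment ℝ x y ⊆ K := by
  have h := hK.convex.openSegment_closure_interior_subset_interior hx
    (by rw [hK.isOpen.interior_eq]; exact hy)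
  rwa [hK.isOpen.interior_eq] at h

theorem combo_mem (hK : IsHilbertDomain K) {x y : Plane} (hx : x ∈ closure K)
    (hy : y ∈ K) {t : ℝ} (h0 : 0 < t) (h1 : t ≤ 1) : x + t • (y - x) ∈ K := by
  rcases eq_or_lt_of_le h1 with h | h
  · subst h; simpa using hy
  · apply seg_closure_subset hK hx hy
    refine ⟨1 - t, t, by linarith, h0, by ring, ?_⟩
    module

theorem interior_closure_eq (hK : IsHilbertDomain K) : interior (closure K) = K := by
  have h := hK.convex.interior_closure_eq_interior_of_nonempty_interior
    (by rw [hK.isOpen.interior_eq]; exact hK.nonempty)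
  rw [h, hK.isOpen.interior_eq]

theorem strict_seg (hK : IsHilbertDomain K) {x y : Plane} (hx : x ∈ closure K)
    (hy : y ∈ closure K) (hxy : x ≠ y) {t : ℝ} (h0 : 0 < t) (h1 : t < 1) :
    x + t • (y - x) ∈ K := by
  have h := hK.strict hx hy hxy (a := 1 - t) (b := t) (by linarith) h0 (by ring)
  rw [interior_closure_eq hK] at h
  convert h using 1
  module

theorem frontier_notMem (hK : IsHilbertDomain K) {x : Plane} (hx : x ∈ frontier K) : x ∉ K := by
  intro h
  have := hx.2
  rw [hK.isOpen.interior_eq] at this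
  exact this h

theorem frontier_of (hK : IsHilbertDomain K) {x : Plane} (hx : x ∈ closure K) (h : x ∉ K) :
    x ∈ frontier K := by
  refine ⟨hx, ?_⟩
  rwa [hK.isOpen.interior_eq]

theorem bddAbove_exit (hK : IsHilbertDomain K) (P : Plane) {v : Plane} (hv : v ≠ 0) :
    BddAbove {t : ℝ | P + t • v ∈ K} := by
  obtain ⟨R, hR⟩ := hK.bounded.subset_closedBall P
  refine ⟨R / ‖v‖, ?_⟩
  intro t ht
  have h1 := hR ht
  rw [Metric.mem_closedBall, dist_eq_norm] at h1
  have h2 : P + t • v - P = t • v := by simp
  rw [h2, norm_smul] at h1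
  have hv' : 0 < ‖v‖ := norm_pos_iff.mpr hv
  rw [le_div_iff₀ hv']
  exact le_trans (mul_le_mul_of_nonneg_right (le_abs_self t) hv'.le) h1

theorem isOpen_exit (hK : IsHilbertDomain K) (P v : Plane) :
    IsOpen {t : ℝ | P + t • v ∈ K} := by
  have : Continuous (fun t : ℝ => P + t • v) := by fun_prop
  exact hK.isOpen.preimage this

theorem lt_exitTime (hK : IsHilbertDomain K) {P v : Plane} (hv : v ≠ 0) {t : ℝ}
    (ht : P + t • v ∈ K) : t < exitTime K P v := by
  have ho := isOpen_exit hK P v
  rw [Metric.isOpen_iff] at ho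
  obtain ⟨e, he, hb⟩ := ho t ht
  have hmem : t + e / 2 ∈ {t : ℝ | P + t • v ∈ K} := by
    apply hb
    rw [Metric.mem_ball, Real.dist_eq]
    rw [show t + e / 2 - t = e / 2 by ring, abs_of_pos (by linarith)]
    linarith
  have := le_csSup (bddAbove_exit hK P hv) hmem
  unfold exitTime
  linarith

theorem exitTime_pos (hK : IsHilbertDomain K) {P v : Plane} (hv : v ≠ 0) (hP : P ∈ K) :
    0 < exitTime K P v := by
  apply lt_exitTime hK hv
  simpa using hP

theorem exit_mem_closure (hK : IsHilbertDomain K) {P v : Plane} (hv : v ≠ 0) (hP : P ∈ K) :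
    P + exitTime K P v • v ∈ closure K := by
  have hne : ({t : ℝ | P + t • v ∈ K}).Nonempty := ⟨0, by simpa using hP⟩
  have h := csSup_mem_closure hne (bddAbove_exit hK P hv)
  have hc : Continuous (fun t : ℝ => P + t • v) := by fun_prop
  exact map_mem_closure (f := fun t : ℝ => P + t • v) hc h (fun t ht => ht)

theorem exit_notMem (hK : IsHilbertDomain K) {P v : Plane} (hv : v ≠ 0) :
    P + exitTime K P v • v ∉ K := by
  intro h
  exact lt_irrefl _ (lt_exitTime hK hv h)

theorem exit_mem_frontier (hK : IsHilbertDomain K) {P v : Plane} (hv : v ≠ 0) (hP : P ∈ K) :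
    P + exitTime K P v • v ∈ frontier K :=
  frontier_of hK (exit_mem_closure hK hv hP) (exit_notMem hK hv)

theorem mem_of_lt_exitTime (hK : IsHilbertDomain K) {P v : Plane} (hv : v ≠ 0) (hP : P ∈ K)
    {t : ℝ} (h0 : 0 ≤ t) (h1 : t < exitTime K P v) : P + t • v ∈ K := by
  rcases eq_or_lt_of_le h0 with h | h
  · subst h; simpa using hP
  have hT := exitTime_pos hK hv hP
  have := combo_mem hK (exit_mem_closure hK hv hP) hP (t := 1 - t / exitTime K P v)
    (by rw [sub_pos, div_lt_one hT]; exact h1) (by
      have : 0 < t / exitTime K P v := div_pos h hT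
      linarith)
  convert this using 1
  have hne : exitTime K P v ≠ 0 := hT.ne'
  have : (1 - t / exitTime K P v) * exitTime K P v = exitTime K P v - t := by
    field_simp
  have e : P + exitTime K P v • v + (1 - t / exitTime K P v) • (P - (P + exitTime K P v • v))
      = P + (exitTime K P v - (1 - t / exitTime K P v) * exitTime K P v) • v := by
    module
  rw [e, this]
  congr 2
  ring

/-- the exit time is the unique positive time at which the ray is at the frontier -/
theorem exitTime_eq (hK : IsHilbertDomain K) {P v : Plane} (hv : v ≠ 0) (hP : P ∈ K) {t : ℝ}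
    (h0 : 0 < t) (h : P + t • v ∈ frontier K) : exitTime K P v = t := by
  apply le_antisymm
  · by_contra hlt
    push Not at hlt
    exact frontier_notMem hK h (mem_of_lt_exitTime hK hv hP h0.le hlt)
  · by_contra hlt
    push Not at hlt
    have hT := exitTime_pos hK hv hP
    have hm := combo_mem hK h.1 hP (t := 1 - exitTime K P v / t)
      (by rw [sub_pos, div_lt_one h0]; exact hlt) (by
        have : 0 < exitTime K P v / t := div_pos hT h0
        linarith)
    apply exit_notMem hK (P := P) hv
    convert hm using 1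
    have : (1 - exitTime K P v / t) * t = t - exitTime K P v := by
      field_simp
    have e : P + t • v + (1 - exitTime K P v / t) • (P - (P + t • v))
        = P + (t - (1 - exitTime K P v / t) * t) • v := by
      module
    rw [e, this]
    congr 2
    ring

/-- The Hilbert distance in terms of exit times. -/
theorem hilbertDist_eq (hK : IsHilbertDomain K) {P Q : Plane} (hP : P ∈ K) (hQ : Q ∈ K)
    (hPQ : P ≠ Q) :
    hilbertDist K P Q = (1 / 2) * Real.log
      (exitTime K Q (P - Q) / (exitTime K Q (P - Q) - 1) *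
        (exitTime K P (Q - P) / (exitTime K P (Q - P) - 1))) := by
  have h1 : P - Q ≠ 0 := sub_ne_zero.mpr hPQ
  have h2 : Q - P ≠ 0 := sub_ne_zero.mpr hPQ.symm
  have t1 : 1 < exitTime K Q (P - Q) := lt_exitTime hK h1 (by simpa using hP)
  have t2 : 1 < exitTime K P (Q - P) := lt_exitTime hK h2 (by simpa using hQ)
  unfold hilbertDist
  rw [if_neg hPQ]
  congr 2
  have e1 : exitPoint K Q P = Q + exitTime K Q (P - Q) • (P - Q) := rfl
  have e2 : exitPoint K P Q = P + exitTime K P (Q - P) • (Q - P) := rfl
  rw [e1, e2]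
  set a := exitTime K Q (P - Q) with ha
  set b := exitTime K P (Q - P) with hb
  have d1 : dist (Q + a • (P - Q)) Q = a * ‖P - Q‖ := by
    rw [dist_eq_norm]
    have : Q + a • (P - Q) - Q = a • (P - Q) := by module
    rw [this, norm_smul, Real.norm_of_nonneg (by linarith)]
  have d2 : dist P (P + b • (Q - P)) = b * ‖P - Q‖ := by
    rw [dist_eq_norm]
    have : P - (P + b • (Q - P)) = b • (P - Q) := by module
    rw [this, norm_smul, Real.norm_of_nonneg (by linarith)]
  have d3 : dist (Q + a • (P - Q)) P = (a - 1) * ‖P - Q‖ := by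
    rw [dist_eq_norm]
    have : Q + a • (P - Q) - P = (a - 1) • (P - Q) := by module
    rw [this, norm_smul, Real.norm_of_nonneg (by linarith)]
  have d4 : dist Q (P + b • (Q - P)) = (b - 1) * ‖P - Q‖ := by
    rw [dist_eq_norm]
    have : Q - (P + b • (Q - P)) = (b - 1) • (P - Q) := by module
    rw [this, norm_smul, Real.norm_of_nonneg (by linarith)]
  rw [d1, d2, d3, d4]
  have hn : ‖P - Q‖ ≠ 0 := norm_ne_zero_iff.mpr h1
  have ha' : a - 1 ≠ 0 := by linarith
  have hb' : b - 1 ≠ 0 := by linarith
  field_simp

end Pool.Agent.Helper78.HP
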