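import Pool.Agent.Helper78.HP.Conic

/-! # The boundary is an ellipse -/

open scoped Affine Topology
open Filter

namespace Pool.Agent.Helper78.HP

variable {K : Set Plane}

/-- quadratic polynomial in two variables -/
def qf (a : Fin 6 → ℝ) (P : Plane) : ℝ :=
  a 0 * P 0 ^ 2 + a 1 * P 0 * P 1 + a 2 * P 1 ^ 2 + a 3 * P 0 + a 4 * P 1 + a 5

theorem continuous_qf (a : Fin 6 → ℝ) : Continuous (qf a) := by
  unfold qf; fun_prop

theorem exists_qf (x y z p q r : Fin 3 → ℝ) : ∃ a : Fin 6 → ℝ, ∀ P : Plane,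
    dot (Qv p q r x y z (hom P)) (hom P) = qf a P := by
  refine ⟨![Qv p q r x y z ![1, 0, 0] 0,
    Qv p q r x y z ![1, 0, 0] 1 + Qv p q r x y z ![0, 1, 0] 0,
    Qv p q r x y z ![0, 1, 0] 1,
    Qv p q r x y z ![1, 0, 0] 2 + Qv p q r x y z ![0, 0, 1] 0,
    Qv p q r x y z ![0, 1, 0] 2 + Qv p q r x y z ![0, 0, 1] 1,
    Qv p q r x y z ![0, 0, 1] 2], ?_⟩
  intro P
  have hlin : ∀ i, Qv p q r x y z (hom P) i = P 0 * Qv p q r x y z ![1, 0, 0] i +
      P 1 * Qv p q r x y z ![0, 1, 0] i + Qv p q r x y z ![0, 0, 1] i := by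
    intro i
    simp only [Qv, det3, hom]
    simp
    ring
  unfold dot qf
  rw [hlin 0, hlin 1, hlin 2]
  simp
  ring

theorem tendsto_exitTime (hK : IsHilbertDomain K) {O v n : Plane} (hO : O ∈ K)
    (hv : ∀ s : ℝ, v + s • n ≠ 0) (hz : O + v ∈ frontier K) :
    Tendsto (fun s : ℝ => exitTime K O (v + s • n)) (𝓝 0) (𝓝 1) := by
  have hv0 : v ≠ 0 := by simpa using hv 0
  have hT : exitTime K O v = 1 := exitTime_eq hK hv0 hO one_pos (by simpa using hz)
  rw [tendsto_order]
  constructor
  · intro a ha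
    obtain ⟨t, ht1, ht2⟩ := exists_between (max_lt ha one_pos)
    have ht0 : 0 < t := lt_of_le_of_lt (le_max_right _ _) ht1
    have hta : a < t := lt_of_le_of_lt (le_max_left _ _) ht1
    have hmem : O + t • v ∈ K := mem_of_lt_exitTime hK hv0 hO ht0.le (by rw [hT]; exact ht2)
    have hc : ContinuousAt (fun s : ℝ => O + t • (v + s • n)) 0 := by fun_prop
    have := hc.eventually (hK.isOpen.mem_nhds (by simpa using hmem))
    filter_upwards [this] with s hs
    exact hta.trans (lt_exitTime hK (hv s) hs)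
  · intro a ha
    obtain ⟨t, ht1, ht2⟩ := exists_between ha
    have hmem : O + t • v ∉ closure K := by
      intro hcl
      have := combo_mem hK hcl hO (t := 1 - 1 / t) (by
        rw [sub_pos, div_lt_one (by linarith)]; exact ht1) (by
        have : 0 < 1 / t := by positivity
        linarith)
      apply frontier_notMem hK hz
      convert this using 1
      have e : O + t • v + (1 - 1 / t) • (O - (O + t • v)) = O + (t - (1 - 1 / t) * t) • v := by
        module
      have e2 : t - (1 - 1 / t) * t = 1 := by field_simp; ring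
      rw [e, e2, one_smul]
    have hc : ContinuousAt (fun s : ℝ => O + t • (v + s • n)) 0 := by fun_prop
    have := hc.eventually (isClosed_closure.isOpen_compl.mem_nhds (by simpa using hmem))
    filter_upwards [this] with s hs
    by_contra hcon
    push Not at hcon
    exact hs (subset_closure (mem_of_lt_exitTime hK (hv s) hO (by linarith) (by linarith)))

theorem countable_on_line (hK : IsHilbertDomain K) (a : SChord K) :
    {J | J ∈ frontier K ∧ ev a.x J = 0}.Countable := by
  apply ((Set.toFinite {a.I, a.J}).countable).mono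
  rintro J ⟨hJ, h0⟩
  by_contra hcon
  simp only [Set.mem_insert_iff, Set.mem_singleton_iff, not_or] at hcon
  obtain ⟨u, hu⟩ := exists_support hK hJ
  have := det_support hK hJ.1 a.hI.1.1 a.hJ.1.1 hu a.hα a.hβ hcon.1 a.ne (Ne.symm hcon.2)
  have e : det3 (hom J) (hom a.I) (hom a.J) = 0 := by rw [← ev_cov_eq_det]; exact h0
  rw [e, mul_zero] at this
  exact lt_irrefl _ this

theorem frontier_conic (hK : IsHilbertDomain K) {a b c : SChord K} {A : Fin 6 → ℝ}
    (h : ∀ I, IsSmooth K I → ev a.x I ≠ 0 → ev b.x I ≠ 0 → ev c.x I ≠ 0 → qf A I = 0) :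
    ∀ z ∈ frontier K, qf A z = 0 := by
  intro z hz
  obtain ⟨O, hO⟩ := hK.nonempty
  have hzO : z ≠ O := fun h => frontier_notMem hK hz (h ▸ hO)
  set v := z - O with hv
  have hv0 : v ≠ 0 := sub_ne_zero.mpr hzO
  set n : Plane := !₂[-(v 1), v 0] with hn
  have hn0 : n 0 = -(v 1) := rfl
  have hn1 : n 1 = v 0 := rfl
  have hindep : v 0 * n 1 - v 1 * n 0 ≠ 0 := by
    rw [hn0, hn1]
    intro h0
    apply hv0
    have e0 : v 0 = 0 := by nlinarith [sq_nonneg (v 0), sq_nonneg (v 1)]
    have e1 : v 1 = 0 := by nlinarith [sq_nonneg (v 0), sq_nonneg (v 1)]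
    ext i; fin_cases i
    · simpa using e0
    · simpa using e1
  have hne := dir_ne_zero hindep
  have hOv : O + v = z := by rw [hv]; abel
  let E : ℝ → Plane := fun s => O + exitTime K O (v + s • n) • (v + s • n)
  have hinj : Function.Injective E := by
    intro s s' hss
    simp only [E] at hss
    have h1 := add_left_cancel hss
    have p2 := exitTime_pos hK (hne s') hO
    rw [smul_add, smul_smul, smul_add, smul_smul] at h1
    obtain ⟨e1, e2⟩ := eq_of_indep hindep h1
    rw [e1] at e2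
    exact mul_left_cancel₀ p2.ne' e2
  have hT := tendsto_exitTime hK hO hne (by rw [hOv]; exact hz)
  have hE0 : Tendsto E (𝓝 0) (𝓝 z) := by
    have h2 : Tendsto (fun s : ℝ => v + s • n) (𝓝 0) (𝓝 v) := by
      have : ContinuousAt (fun s : ℝ => v + s • n) 0 := by fun_prop
      simpa [ContinuousAt] using this
    have h3 := (hT.smul h2).const_add O
    rw [one_smul, hOv] at h3
    exact h3
  by_contra hcon
  have hev : ∀ᶠ s in 𝓝 (0 : ℝ), qf A (E s) ≠ 0 :=
    (((continuous_qf A).tendsto z).comp hE0).eventually_ne hcon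
  rw [Metric.eventually_nhds_iff] at hev
  obtain ⟨ε, hε, hall⟩ := hev
  have hBad := (((countable_corners hK).union (countable_on_line hK a)).union
    (countable_on_line hK b)).union (countable_on_line hK c)
  obtain ⟨s, hs, hgood⟩ := avoid' (E := E) (a := 0) (b := ε) (hinj.injOn) hBad hε
  simp only [Set.mem_union, not_or] at hgood
  obtain ⟨⟨⟨g0, g1⟩, g2⟩, g3⟩ := hgood
  have hEf : E s ∈ frontier K := exit_mem_frontier hK (hne s) hO
  apply hall (y := s) (by rw [Real.dist_eq, sub_zero, abs_of_pos hs.1]; exact hs.2)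
  apply h
  · by_contra hc; exact g0 ⟨hEf, hc⟩
  · intro h0; exact g1 ⟨hEf, h0⟩
  · intro h0; exact g2 ⟨hEf, h0⟩
  · intro h0; exact g3 ⟨hEf, h0⟩

/-- the homogeneous quadratic part -/
def q2 (a : Fin 6 → ℝ) (v : Plane) : ℝ := a 0 * v 0 ^ 2 + a 1 * v 0 * v 1 + a 2 * v 1 ^ 2

/-- the linear form -/
def q1 (a : Fin 6 → ℝ) (P v : Plane) : ℝ :=
  (2 * a 0 * P 0 + a 1 * P 1 + a 3) * v 0 + (a 1 * P 0 + 2 * a 2 * P 1 + a 4) * v 1

theorem qf_add (a : Fin 6 → ℝ) (P v : Plane) (t : ℝ) :
    qf a (P + t • v) = qf a P + t * q1 a P v + t ^ 2 * q2 a v := by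
  simp [qf, q1, q2]; ring

theorem ellipse_of_conic (hK : IsHilbertDomain K) {a : Fin 6 → ℝ}
    (hfr : ∀ z ∈ frontier K, qf a z = 0) {O : Plane} (hO : O ∈ K) (hneg : qf a O < 0) :
    IsEllipse (frontier K) := by
  have hq2 : ∀ v : Plane, v ≠ 0 → 0 < q2 a v := by
    intro v hv
    have hv' : -v ≠ 0 := neg_ne_zero.mpr hv
    have p1 := exitTime_pos hK hv hO
    have p2 := exitTime_pos hK hv' hO
    have e1 := hfr _ (exit_mem_frontier hK hv hO)
    have e2 := hfr _ (exit_mem_frontier hK hv' hO)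
    rw [qf_add] at e1 e2
    have f1 : q1 a O (-v) = - q1 a O v := by simp [q1]; ring
    have f2 : q2 a (-v) = q2 a v := by simp [q2]
    rw [f1, f2] at e2
    set T := exitTime K O v
    set S := exitTime K O (-v)
    have key : (T + S) * (q2 a v * (T * S) + qf a O) = 0 := by
      linear_combination S * e1 + T * e2
    have hTS : 0 < T + S := by linarith
    have key2 : q2 a v * (T * S) + qf a O = 0 := by
      rcases mul_eq_zero.mp key with h' | h'
      · linarith
      · exact h'
    have hTS' : 0 < T * S := mul_pos p1 p2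
    have : 0 < q2 a v * (T * S) := by linarith
    exact (pos_iff_pos_of_mul_pos this).mpr hTS'
  have ha0 : 0 < a 0 := by
    have := hq2 (EuclideanSpace.single 0 1) (by
      intro h; have := congrArg (fun v : Plane => v 0) h; simp at this)
    simpa [q2] using this
  set Δ := 4 * a 0 * a 2 - a 1 ^ 2 with hΔ
  have hΔ0 : 0 < Δ := by
    have := hq2 !₂[-(a 1), 2 * a 0] (by
      intro h
      have := congrArg (fun v : Plane => v 1) h
      simp at this
      linarith)
    have e : q2 a !₂[-(a 1), 2 * a 0] = a 0 * Δ := by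
      simp [q2, hΔ]; ring
    rw [e] at this
    exact (pos_iff_pos_of_mul_pos this).mp ha0
  set c : Plane := !₂[(a 1 * a 4 - 2 * a 2 * a 3) / Δ, (a 1 * a 3 - 2 * a 0 * a 4) / Δ] with hc
  have hc0 : c 0 = (a 1 * a 4 - 2 * a 2 * a 3) / Δ := rfl
  have hc1 : c 1 = (a 1 * a 3 - 2 * a 0 * a 4) / Δ := rfl
  have hlin : ∀ w : Plane, qf a (c + w) = qf a c + q2 a w := by
    intro w
    have h1 := qf_add a c w 1
    rw [one_smul] at h1
    rw [h1]
    have g0 : 2 * a 0 * c 0 + a 1 * c 1 + a 3 = 0 := by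
      rw [hc0, hc1]; field_simp; rw [hΔ]; ring
    have g1 : a 1 * c 0 + 2 * a 2 * c 1 + a 4 = 0 := by
      rw [hc0, hc1]; field_simp; rw [hΔ]; ring
    unfold q1
    rw [g0, g1]; ring
  set ρ := - qf a c with hρ
  have hρ0 : 0 < ρ := by
    have h1 := hlin (O - c)
    have e : c + (O - c) = O := by abel
    rw [e] at h1
    have h2 : 0 ≤ q2 a (O - c) := by
      by_cases h0 : O - c = 0
      · rw [h0]; simp [q2]
      · exact (hq2 _ h0).le
    rw [hρ]; linarith
  set k0 := Real.sqrt (ρ / a 0) with hk0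
  set k1 := Real.sqrt (4 * a 0 * ρ / Δ) with hk1
  have hk0p : 0 < k0 := Real.sqrt_pos.mpr (by positivity)
  have hk1p : 0 < k1 := Real.sqrt_pos.mpr (by positivity)
  have hk0s : k0 ^ 2 = ρ / a 0 := Real.sq_sqrt (by positivity)
  have hk1s : k1 ^ 2 = 4 * a 0 * ρ / Δ := Real.sq_sqrt (by positivity)
  let e : Plane ≃ₗ[ℝ] Plane :=
    { toFun := fun Y => !₂[k0 * Y 0 - (a 1 / (2 * a 0)) * (k1 * Y 1), k1 * Y 1]
      invFun := fun w => !₂[(w 0 + (a 1 / (2 * a 0)) * w 1) / k0, w 1 / k1]
      map_add' := by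
        intro X Y; ext i; fin_cases i
        · simp; ring
        · simp; ring
      map_smul' := by
        intro k Y; ext i; fin_cases i
        · simp; ring
        · simp; ring
      left_inv := by
        intro Y; ext i; fin_cases i
        · simp; field_simp
        · simp; field_simp
      right_inv := by
        intro w; ext i; fin_cases i
        · simp; field_simp; ring
        · simp; field_simp }
  have he0 : ∀ Y : Plane, (e Y) 0 = k0 * Y 0 - (a 1 / (2 * a 0)) * (k1 * Y 1) := fun _ => rfl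
  have he1 : ∀ Y : Plane, (e Y) 1 = k1 * Y 1 := fun _ => rfl
  have hq2e : ∀ Y : Plane, q2 a (e Y) = ρ * (Y 0 ^ 2 + Y 1 ^ 2) := by
    intro Y
    have h1 : q2 a (e Y) = a 0 * k0 ^ 2 * Y 0 ^ 2 + (Δ / (4 * a 0)) * k1 ^ 2 * Y 1 ^ 2 := by
      unfold q2
      rw [he0, he1, hΔ]
      field_simp
      ring
    rw [h1, hk0s, hk1s]
    field_simp
  let f : Plane ≃ᵃ[ℝ] Plane := e.toAffineEquiv.trans (AffineEquiv.constVAdd ℝ Plane c)
  have hf : ∀ Y, f Y = c + e Y := fun Y => rfl
  refine ⟨f, ?_⟩
  have hnorm : ∀ Y : Plane, Y ∈ Metric.sphere (0 : Plane) 1 ↔ Y 0 ^ 2 + Y 1 ^ 2 = 1 := by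
    intro Y
    rw [mem_sphere_zero_iff_norm, EuclideanSpace.norm_eq, Fin.sum_univ_two]
    simp only [Real.norm_eq_abs, sq_abs]
    rw [Real.sqrt_eq_one]
  have hzero : ∀ Y : Plane, qf a (f Y) = 0 ↔ Y ∈ Metric.sphere (0 : Plane) 1 := by
    intro Y
    rw [hf, hlin, hq2e, hnorm]
    have : qf a c = -ρ := by rw [hρ]; ring
    rw [this]
    constructor
    · intro h
      have : ρ * (Y 0 ^ 2 + Y 1 ^ 2) = ρ * 1 := by linarith
      exact mul_left_cancel₀ hρ0.ne' this
    · intro h; rw [h]; ring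
  ext z
  constructor
  · intro hz
    refine ⟨f.symm z, ?_, by simp⟩
    rw [← hzero]
    simpa using hfr z hz
  · rintro ⟨Y, hY, rfl⟩
    have hg := (hzero Y).mpr hY
    set z := f Y
    have hzO : z ≠ O := by
      intro h; rw [h] at hg; linarith
    have hv : z - O ≠ 0 := sub_ne_zero.mpr hzO
    have p1 := exitTime_pos hK hv hO
    have e1 := hfr _ (exit_mem_frontier hK hv hO)
    have hpos := hq2 _ hv
    have e2 := qf_add a O (z - O) 1
    have ez : O + (1 : ℝ) • (z - O) = z := by rw [one_smul]; abel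
    rw [ez, hg] at e2
    rw [qf_add] at e1
    set T := exitTime K O (z - O) with hT
    have hT1 : T = 1 := by
      by_contra hne
      have h1 : (T - 1) * (q2 a (z - O) * (T + 1) + q1 a O (z - O)) = 0 := by
        linear_combination e1 + e2
      rcases mul_eq_zero.mp h1 with h' | h'
      · exact hne (by linarith)
      · have h2 : 0 < q2 a (z - O) * T := mul_pos hpos p1
        have h3 : qf a O = q2 a (z - O) * T := by linear_combination -e2 - h'
        linarith
    have := exit_mem_frontier hK hv hO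
    rw [← hT, hT1, ez] at this
    exact this

theorem main (hK : IsHilbertDomain K) (h : RevAltHyp K) : IsEllipse (frontier K) := by
  obtain ⟨a, b, c, x, y, z, p, q, r, ⟨O, hO, hne⟩, hall⟩ := exists_conic_smooth hK h
  obtain ⟨A, hA⟩ := exists_qf x y z p q r
  simp only [hA] at hne hall
  have hfr := frontier_conic hK hall
  rcases lt_or_gt_of_ne hne with hlt | hgt
  · exact ellipse_of_conic hK hfr hO hlt
  · apply ellipse_of_conic hK (a := -A) _ hO
    · have : qf (-A) O = - qf A O := by simp [qf]; ring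
      rw [this]; linarith
    · intro z hz
      have : qf (-A) z = - qf A z := by simp [qf]; ring
      rw [this, hfr z hz, neg_zero]

end Pool.Agent.Helper78.HP
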