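import Pool.Agent.Helper78.HP.Support

/-! # Perpendicularity and poles -/

open scoped Affine Topology
open Filter

namespace Pool.Agent.Helper78.HP

variable {K : Set Plane}

theorem ratio_ge (hK : IsHilbertDomain K) {P Q z : Plane} (hP : P ∈ K) (hQ : Q ∈ K) (hne : P ≠ Q)
    {u : Cov} (hu : IsSupport K z u) :
    ev u P / ev u Q ≤ exitTime K P (Q - P) / (exitTime K P (Q - P) - 1) := by
  have h1 : Q - P ≠ 0 := sub_ne_zero.mpr hne.symm
  have t1 : 1 < exitTime K P (Q - P) := lt_exitTime hK h1 (by simpa using hQ)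
  have h2 := hu.nonneg (exit_mem_closure hK h1 hP)
  rw [ev_add_smul, lin_sub] at h2
  rw [div_le_div_iff₀ (hu.2 Q hQ) (by linarith)]
  nlinarith

theorem ratio_eq (hK : IsHilbertDomain K) {P Q z : Plane} (hP : P ∈ K) (hQ : Q ∈ K) (hne : P ≠ Q)
    {u : Cov} (hu : IsSupport K z u) {t : ℝ} (ht : 0 < t) (hz : z = P + t • (Q - P))
    (hzf : z ∈ frontier K) :
    exitTime K P (Q - P) / (exitTime K P (Q - P) - 1) = ev u P / ev u Q := by
  have h1 : Q - P ≠ 0 := sub_ne_zero.mpr hne.symm
  have t1 : 1 < exitTime K P (Q - P) := lt_exitTime hK h1 (by simpa using hQ)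
  have e : exitTime K P (Q - P) = t := exitTime_eq hK h1 hP ht (hz ▸ hzf)
  have h2 := hu.1
  rw [hz, ev_add_smul, lin_sub] at h2
  rw [e] at t1 ⊢
  rw [div_eq_div_iff (by linarith) (hu.2 Q hQ).ne']
  nlinarith

theorem hilbertDist_nonneg (hK : IsHilbertDomain K) {P Q : Plane} (hP : P ∈ K) (hQ : Q ∈ K) :
    0 ≤ hilbertDist K P Q := by
  by_cases h : P = Q
  · simp [hilbertDist, h]
  · rw [hilbertDist_eq hK hP hQ h]
    have h1 : P - Q ≠ 0 := sub_ne_zero.mpr h
    have h2 : Q - P ≠ 0 := sub_ne_zero.mpr (Ne.symm h)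
    have t1 : 1 < exitTime K Q (P - Q) := lt_exitTime hK h1 (by simpa using hP)
    have t2 : 1 < exitTime K P (Q - P) := lt_exitTime hK h2 (by simpa using hQ)
    have r1 : 1 ≤ exitTime K Q (P - Q) / (exitTime K Q (P - Q) - 1) := by
      rw [le_div_iff₀ (by linarith)]; linarith
    have r2 : 1 ≤ exitTime K P (Q - P) / (exitTime K P (Q - P) - 1) := by
      rw [le_div_iff₀ (by linarith)]; linarith
    have := Real.log_nonneg (one_le_mul_of_one_le_of_one_le r1 r2)
    positivity

/-- Half of the sufficiency of the pole condition. -/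
theorem dist_le_of_pole (hK : IsHilbertDomain K) {I J F Y : Plane} {α β : Cov}
    (hI : I ∈ frontier K) (hJ : J ∈ frontier K) (hα : IsSupport K I α) (hβ : IsSupport K J β)
    (hF : F ∈ K) {q : ℝ} (hq : 0 < q) (hFJ : J = F + q • (F - I))
    {r : ℝ} (hr0 : 0 < r) (hr1 : r < 1) (hY : Y ∈ K)
    (hpole : ev α F * ev β Y = ev β F * ev α Y) :
    hilbertDist K (F + r • (I - F)) F ≤ hilbertDist K (F + r • (I - F)) Y := by
  have hIF : I ≠ F := fun h => frontier_notMem hK hI (h ▸ hF)
  set X := F + r • (I - F) with hX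
  have hXK : X ∈ K := by
    have := combo_mem hK hI.1 hF (t := 1 - r) (by linarith) (by linarith)
    convert this using 1
    rw [hX]; module
  have hXF : X ≠ F := by
    intro h
    rw [hX] at h
    have : r • (I - F) = 0 := by simpa using h
    rcases smul_eq_zero.mp this with h' | h'
    · linarith
    · exact hIF (sub_eq_zero.mp h')
  have hαX := hα.2 X hXK
  have hαF := hα.2 F hF
  have hαY := hα.2 Y hY
  have hβX := hβ.2 X hXK
  have hβF := hβ.2 F hF
  have hβY := hβ.2 Y hY
  have d1 : hilbertDist K X F = (1 / 2) * Real.log (ev α F / ev α X * (ev β X / ev β F)) := by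
    rw [hilbertDist_eq hK hXK hF hXF]
    rw [ratio_eq hK hF hXK hXF.symm hα (t := 1 / r) (by positivity) (by
      rw [hX]
      have : (1 / r) • (F + r • (I - F) - F) = I - F := by
        rw [add_sub_cancel_left, smul_smul]
        rw [one_div_mul_cancel hr0.ne', one_smul]
      rw [this]; abel) hI]
    rw [ratio_eq hK hXK hF hXF hβ (t := 1 + q / r) (by positivity) (by
      rw [hX, hFJ]
      have h1 : F - (F + r • (I - F)) = (-r) • (I - F) := by module
      rw [h1, smul_smul]
      have h2 : (1 + q / r) * (-r) = -(r + q) := by field_simp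
      rw [h2]
      module) hJ]
  by_cases hXY : X = Y
  · exfalso
    rw [← hXY] at hpole
    have e1 : ev α X = (1 - r) * ev α F := by
      rw [hX, ev_add_smul, lin_sub, hα.1]; ring
    have e2 : ev β X = ev β F - r * lin β (F - I) := by
      rw [hX, ev_add_smul]
      have : lin β (I - F) = - lin β (F - I) := by
        rw [lin_sub, lin_sub]; ring
      rw [this]; ring
    have e3 : 0 = ev β F + q * lin β (F - I) := by
      rw [← ev_add_smul, ← hFJ, hβ.1]
    rw [e1, e2] at hpole
    have e4 : ev α F * (r * (ev β F - lin β (F - I))) = 0 := by linear_combination hpole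
    have e5 : 0 < ev β F - lin β (F - I) := by
      have : lin β (F - I) < 0 := by
        by_contra hcon
        push Not at hcon
        have := mul_nonneg hq.le hcon
        linarith
      linarith
    have e6 : 0 < ev α F * (r * (ev β F - lin β (F - I))) := by positivity
    linarith
  · rw [d1, hilbertDist_eq hK hXK hY hXY]
    have g1 := ratio_ge hK hY hXK (Ne.symm hXY) hα
    have g2 := ratio_ge hK hXK hY hXY hβ
    have key : ev α F / ev α X * (ev β X / ev β F) = ev α Y / ev α X * (ev β X / ev β Y) := by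
      field_simp
      linear_combination hpole
    rw [key]
    have p1 : 0 < ev α Y / ev α X := by positivity
    have p2 : 0 < ev β X / ev β Y := by positivity
    have := Real.log_le_log (mul_pos p1 p2) (mul_le_mul g1 g2 p2.le (by linarith))
    linarith

theorem ratio_bound {r T : ℝ} (hr : 0 < r) (hT : 1 + r < T) : T / (T - 1) ≤ (1 + r) / r := by
  rw [div_le_div_iff₀ (by linarith) hr]
  linarith

/-- Necessity of the pole condition at smooth endpoints, one-sided version. -/
theorem pole_aux (hK : IsHilbertDomain K) {I J F e v : Plane} {α β : Cov}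
    (hI : IsSmooth K I) (hJ : IsSmooth K J) (hα : IsSupport K I α) (hβ : IsSupport K J β)
    (hF : F ∈ K) {ρ : ℝ} (hρ : 0 < ρ) (hIe : I = F - (2 : ℝ) • e) (hJe : J = F + ρ • e)
    (hmin : ∀ s : ℝ, F + s • v ∈ K → hilbertDist K (F - e) F ≤ hilbertDist K (F - e) (F + s • v)) :
    lin β v * ev α F ≤ lin α v * ev β F := by
  by_contra hcon
  push Not at hcon
  have hαF := hα.2 F hF
  have hβF := hβ.2 F hF
  have hIF : I ≠ F := fun h => frontier_notMem hK hI.1 (h ▸ hF)
  have he0 : e ≠ 0 := by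
    intro h; apply hIF; rw [hIe, h]; simp
  have hαe : lin α e = ev α F / 2 := by
    have h1 := hα.1
    rw [hIe, show F - (2 : ℝ) • e = F + (-2 : ℝ) • e by module, ev_add_smul] at h1
    linarith
  have hβe : ρ * lin β e = - ev β F := by
    have h1 := hβ.1
    rw [hJe, ev_add_smul] at h1
    linarith
  set X := F - e with hX
  have hXK : X ∈ K := by
    have := combo_mem hK hI.1.1 hF (t := 1 / 2) (by norm_num) (by norm_num)
    convert this using 1
    rw [hX, hIe]; module
  have hXF : X ≠ F := by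
    intro h; apply he0
    rw [hX] at h
    simpa using h
  -- constants
  set κ := lin β v / ev β F - lin α v / ev α F with hκ
  have hκ0 : 0 < κ := by
    rw [hκ, sub_pos, div_lt_div_iff₀ hαF hβF]
    exact hcon
  set M := 2 * (1 + ρ) / ev α F + 2 / ev β F with hM
  have hM0 : 0 < M := by positivity
  set δ := (1 + ρ) * κ / M with hδ
  have hδ0 : 0 < δ := by positivity
  set η := 2 * (lin α v + δ) / ev α F with hη
  set ζ := (δ - (1 + ρ) * lin β v) / ev β F with hζ
  have hC : (1 + ρ) * η + 2 * ζ = -((1 + ρ) * κ) := by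
    have h1 : (1 + ρ) * η + 2 * ζ = -(2 * (1 + ρ) * κ) + δ * M := by
      rw [hη, hζ, hκ, hM]; field_simp; ring
    rw [h1, hδ]
    field_simp
    ring
  have hCneg : (1 + ρ) * η + 2 * ζ < 0 := by
    rw [hC]
    have : 0 < (1 + ρ) * κ := by positivity
    linarith
  -- inner points near I and J
  have hn1 : 0 < lin α (η • e - v) := by
    have : lin α (η • e - v) = η * lin α e - lin α v := by
      rw [show η • e - v = η • e + (-1 : ℝ) • v by module, lin_add, lin_smul, lin_smul]; ring
    rw [this, hαe, hη]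
    have : 2 * (lin α v + δ) / ev α F * (ev α F / 2) - lin α v = δ := by field_simp; ring
    rw [this]; exact hδ0
  have hn2 : 0 < lin β ((1 + ρ) • v - (ρ * ζ) • e) := by
    have : lin β ((1 + ρ) • v - (ρ * ζ) • e) = (1 + ρ) * lin β v - ζ * (ρ * lin β e) := by
      rw [show (1 + ρ) • v - (ρ * ζ) • e = (1 + ρ) • v + (-(ρ * ζ)) • e by module, lin_add,
        lin_smul, lin_smul]; ring
    rw [this, hβe, hζ]
    have : (1 + ρ) * lin β v - (δ - (1 + ρ) * lin β v) / ev β F * -ev β F = δ := by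
      field_simp; ring
    rw [this]; exact hδ0
  obtain ⟨τ, hτ, hτK⟩ := hI.inward hK hα hn1
  obtain ⟨τ', hτ', hτK'⟩ := hJ.inward hK hβ hn2
  have c1 : ContinuousAt (fun s : ℝ => I + τ • ((η • e - v) + s • (η • v))) 0 := by
    fun_prop
  have c2 : ContinuousAt
      (fun s : ℝ => J + τ' • (((1 + ρ) • v - (ρ * ζ) • e) + s • (-(ρ * ζ) • v))) 0 := by
    fun_prop
  have c3 : ContinuousAt (fun s : ℝ => F + s • v) 0 := by fun_prop
  have ev1 : ∀ᶠ s in 𝓝 (0 : ℝ), I + τ • ((η • e - v) + s • (η • v)) ∈ K :=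
    c1.eventually (hK.isOpen.mem_nhds (by simpa using hτK))
  have ev2 : ∀ᶠ s in 𝓝 (0 : ℝ),
      J + τ' • (((1 + ρ) • v - (ρ * ζ) • e) + s • (-(ρ * ζ) • v)) ∈ K :=
    c2.eventually (hK.isOpen.mem_nhds (by simpa using hτK'))
  have ev3 : ∀ᶠ s in 𝓝 (0 : ℝ), F + s • v ∈ K :=
    c3.eventually (hK.isOpen.mem_nhds (by simpa using hF))
  have ev4 : ∀ᶠ s in 𝓝 (0 : ℝ), 0 < 1 - η * s :=
    (by fun_prop : ContinuousAt (fun s : ℝ => 1 - η * s) 0).eventually
      (lt_mem_nhds (by simp))
  have ev5 : ∀ᶠ s in 𝓝 (0 : ℝ), 0 < 1 - ζ * s :=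
    (by fun_prop : ContinuousAt (fun s : ℝ => 1 - ζ * s) 0).eventually
      (lt_mem_nhds (by simp))
  have ev6 : ∀ᶠ s in 𝓝 (0 : ℝ), s < τ := gt_mem_nhds hτ
  have ev7 : ∀ᶠ s in 𝓝 (0 : ℝ), s < τ' := gt_mem_nhds hτ'
  have ev8 : ∀ᶠ s in 𝓝 (0 : ℝ), ((1 + ρ) * η + 2 * ζ) - s * (η * ζ * (ρ + 2)) < 0 :=
    (by fun_prop : ContinuousAt (fun s : ℝ => ((1 + ρ) * η + 2 * ζ) - s * (η * ζ * (ρ + 2))) 0).eventually
      (gt_mem_nhds (by simpa using hCneg))
  have evall := ev1.and (ev2.and (ev3.and (ev4.and (ev5.and (ev6.and (ev7.and ev8))))))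
  have evpos : ∀ᶠ s in 𝓝[>] (0 : ℝ), 0 < s := eventually_mem_nhdsWithin
  obtain ⟨s, ⟨h1, h2, h3, h4, h5, h6, h7, h8⟩, hs⟩ :=
    ((evall.filter_mono nhdsWithin_le_nhds).and evpos).exists
  set Y := F + s • v with hY
  -- Z and W
  have hZ : X + (1 - η * s) • (X - Y) ∈ K := by
    have := combo_mem hK hI.1.1 h1 (t := s / τ) (by positivity) (by
      rw [div_le_one hτ]; exact h6.le)
    convert this using 1
    have : (s / τ) • (I + τ • ((η • e - v) + s • (η • v)) - I) = s • ((η • e - v) + s • (η • v)) := by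
      rw [add_sub_cancel_left, smul_smul]
      congr 1
      field_simp
    rw [this, hX, hY, hIe]
    module
  have hW : Y + (ρ * (1 - ζ * s)) • (Y - X) ∈ K := by
    have := combo_mem hK hJ.1.1 h2 (t := s / τ') (by positivity) (by
      rw [div_le_one hτ']; exact h7.le)
    convert this using 1
    have : (s / τ') • (J + τ' • (((1 + ρ) • v - (ρ * ζ) • e) + s • (-(ρ * ζ) • v)) - J)
        = s • (((1 + ρ) • v - (ρ * ζ) • e) + s • (-(ρ * ζ) • v)) := by
      rw [add_sub_cancel_left, smul_smul]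
      congr 1
      field_simp
    rw [this, hX, hY, hJe]
    module
  have hmin' : hilbertDist K X F ≤ hilbertDist K X Y := hmin s h3
  have d1 : hilbertDist K X F = (1 / 2) * Real.log (2 * ((1 + ρ) / ρ)) := by
    rw [hilbertDist_eq hK hXK hF hXF]
    have t1 : exitTime K F (X - F) = 2 := by
      apply exitTime_eq hK (sub_ne_zero.mpr hXF) hF (by norm_num)
      have : F + (2 : ℝ) • (X - F) = I := by rw [hX, hIe]; module
      rw [this]; exact hI.1
    have t2 : exitTime K X (F - X) = 1 + ρ := by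
      apply exitTime_eq hK (sub_ne_zero.mpr hXF.symm) hXK (by linarith)
      have : X + (1 + ρ) • (F - X) = J := by rw [hX, hJe]; module
      rw [this]; exact hJ.1
    rw [t1, t2]
    congr 2
    rw [show 1 + ρ - 1 = ρ by ring]
    norm_num
  have hdpos : 0 < hilbertDist K X F := by
    rw [d1]
    have : 1 < 2 * ((1 + ρ) / ρ) := by
      have : 1 < (1 + ρ) / ρ := by rw [lt_div_iff₀ hρ]; linarith
      linarith
    have := Real.log_pos this
    positivity
  have hXY : X ≠ Y := by
    intro h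
    rw [← h] at hmin'
    have : hilbertDist K X X = 0 := by simp [hilbertDist]
    rw [this] at hmin'
    linarith
  rw [d1, hilbertDist_eq hK hXK h3 hXY] at hmin'
  set T1 := exitTime K Y (X - Y) with hT1
  set T2 := exitTime K X (Y - X) with hT2
  have hT1' : 1 + (1 - η * s) < T1 := by
    apply lt_exitTime hK (sub_ne_zero.mpr hXY)
    convert hZ using 1
    module
  have hT2' : 1 + ρ * (1 - ζ * s) < T2 := by
    apply lt_exitTime hK (sub_ne_zero.mpr (Ne.symm hXY))
    convert hW using 1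
    module
  have hρs : 0 < ρ * (1 - ζ * s) := mul_pos hρ h5
  have hlog : Real.log (2 * ((1 + ρ) / ρ)) ≤ Real.log (T1 / (T1 - 1) * (T2 / (T2 - 1))) := by
    linarith
  have pos1 : 0 < T1 / (T1 - 1) := div_pos (by linarith) (by linarith)
  have pos2 : 0 < T2 / (T2 - 1) := div_pos (by linarith) (by linarith)
  have hle : 2 * ((1 + ρ) / ρ) ≤ T1 / (T1 - 1) * (T2 / (T2 - 1)) :=
    (Real.log_le_log_iff (by positivity) (mul_pos pos1 pos2)).mp hlog
  have b1 : T1 / (T1 - 1) ≤ (1 + (1 - η * s)) / (1 - η * s) := ratio_bound h4 hT1'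
  have b2 : T2 / (T2 - 1) ≤ (1 + ρ * (1 - ζ * s)) / (ρ * (1 - ζ * s)) := ratio_bound hρs hT2'
  have hle2 : 2 * ((1 + ρ) / ρ) ≤
      (1 + (1 - η * s)) / (1 - η * s) * ((1 + ρ * (1 - ζ * s)) / (ρ * (1 - ζ * s))) :=
    hle.trans (mul_le_mul b1 b2 pos2.le (by positivity))
  rw [div_mul_div_comm, ← mul_div_assoc, div_le_div_iff₀ hρ (mul_pos h4 hρs)] at hle2
  -- polynomial contradiction
  have hfin : 0 ≤ ρ * s * (((1 + ρ) * η + 2 * ζ) - s * (η * ζ * (ρ + 2))) := by
    have e : ρ * s * (((1 + ρ) * η + 2 * ζ) - s * (η * ζ * (ρ + 2))) =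
        (1 + (1 - η * s)) * (1 + ρ * (1 - ζ * s)) * ρ -
          2 * (1 + ρ) * ((1 - η * s) * (ρ * (1 - ζ * s))) := by ring
    rw [e]
    linarith
  have hneg : ρ * s * (((1 + ρ) * η + 2 * ζ) - s * (η * ζ * (ρ + 2))) < 0 :=
    mul_neg_of_pos_of_neg (mul_pos hρ hs) h8
  linarith

/-- Necessity of the pole condition. -/
theorem pole_of_min (hK : IsHilbertDomain K) {I J F v : Plane} {α β : Cov}
    (hI : IsSmooth K I) (hJ : IsSmooth K J) (hα : IsSupport K I α) (hβ : IsSupport K J β)
    {r : ℝ} (hr0 : 0 < r) (hr1 : r < 1) (hFr : F = I + r • (J - I)) (hF : F ∈ K)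
    (hmin : ∀ X ∈ K, (∃ t : ℝ, X = I + t • (J - I)) → ∀ s : ℝ, F + s • v ∈ K →
      hilbertDist K X F ≤ hilbertDist K X (F + s • v)) :
    lin β v * ev α F = lin α v * ev β F := by
  have hXK : F - (r / 2) • (J - I) ∈ K := by
    have := combo_mem hK hI.1.1 hF (t := 1 / 2) (by norm_num) (by norm_num)
    convert this using 1
    rw [hFr]; module
  have hm := hmin _ hXK ⟨r / 2, by rw [hFr]; module⟩
  apply le_antisymm
  · apply pole_aux hK hI hJ hα hβ hF (e := (r / 2) • (J - I)) (ρ := 2 * (1 - r) / r)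
      (div_pos (by linarith) hr0) (by rw [hFr]; module) (by
        rw [hFr, smul_smul]
        have : 2 * (1 - r) / r * (r / 2) = 1 - r := by field_simp
        rw [this]; module) hm
  · have := pole_aux hK hI hJ hα hβ hF (e := (r / 2) • (J - I)) (v := -v) (ρ := 2 * (1 - r) / r)
      (div_pos (by linarith) hr0) (by rw [hFr]; module) (by
        rw [hFr, smul_smul]
        have : 2 * (1 - r) / r * (r / 2) = 1 - r := by field_simp
        rw [this]; module) (by
        intro s hs
        have := hm (-s) (by simpa using hs)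
        simpa using this)
    have e1 : lin β (-v) = - lin β v := by simp [lin]; ring
    have e2 : lin α (-v) = - lin α v := by simp [lin]; ring
    rw [e1, e2] at this
    linarith

end Pool.Agent.Helper78.HP
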