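import Pool.Agent.Helper78.HP.PerpPole

/-! # Reverse altitudes of triangles with smooth side lines -/

open scoped Affine Topology
open Filter

namespace Pool.Agent.Helper78.HP

variable {K : Set Plane}

/-- Covector of the line through two points. -/
def cov (I J : Plane) : Cov := ![I 1 - J 1, J 0 - I 0, I 0 * J 1 - I 1 * J 0]

theorem ev_cov (I J p : Plane) : ev (cov I J) p =
    (I 1 - J 1) * p 0 + (J 0 - I 0) * p 1 + (I 0 * J 1 - I 1 * J 0) := by
  simp [ev, cov]

theorem ev_cov_left (I J : Plane) : ev (cov I J) I = 0 := by rw [ev_cov]; ring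
theorem ev_cov_right (I J : Plane) : ev (cov I J) J = 0 := by rw [ev_cov]; ring

theorem ev_cov_eq_det (I J p : Plane) : ev (cov I J) p = det3 (hom p) (hom I) (hom J) := by
  rw [ev_cov]; simp [det3]; ring

theorem ev_cov_iff {I J : Plane} (h : I ≠ J) (p : Plane) :
    ev (cov I J) p = 0 ↔ ∃ t : ℝ, p = I + t • (J - I) := by
  constructor
  · intro hp
    rw [ev_cov] at hp
    by_cases h0 : J 0 - I 0 = 0
    · have h1 : J 1 - I 1 ≠ 0 := by
        intro h1
        apply h
        ext i; fin_cases i
        · simp; linarith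
        · simp; linarith
      refine ⟨(p 1 - I 1) / (J 1 - I 1), ?_⟩
      have hJ0 : J 0 = I 0 := by linarith
      have hp0 : p 0 = I 0 := by
        rw [hJ0] at hp
        have : (I 1 - J 1) * (p 0 - I 0) = 0 := by linarith
        rcases mul_eq_zero.mp this with h' | h'
        · exact absurd (by linarith) h1
        · linarith
      ext i; fin_cases i
      · simp [hJ0, hp0]
      · simp
        field_simp
        ring
    · refine ⟨(p 0 - I 0) / (J 0 - I 0), ?_⟩
      ext i; fin_cases i
      · simp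
        field_simp
        ring
      · simp
        field_simp
        linarith
  · rintro ⟨t, rfl⟩
    rw [ev_add_smul, ev_cov_left, lin_sub, ev_cov_left, ev_cov_right]; ring

/-- A chord with smooth endpoints, together with support functionals at the endpoints. -/
structure SChord (K : Set Plane) where
  I : Plane
  J : Plane
  α : Cov
  β : Cov
  hI : IsSmooth K I
  hJ : IsSmooth K J
  ne : I ≠ J
  hα : IsSupport K I α
  hβ : IsSupport K J β

/-- the covector of the line of the chord -/
def SChord.x (c : SChord K) : Cov := cov c.I c.J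

theorem param_bounds (hK : IsHilbertDomain K) {I J : Plane} (hI : I ∈ frontier K)
    (hJ : J ∈ frontier K) {t : ℝ} (ht : I + t • (J - I) ∈ K) : 0 < t ∧ t < 1 := by
  constructor
  · by_contra hcon
    push Not at hcon
    have h1 : 0 < 1 - t := by linarith
    have := combo_mem hK hJ.1 ht (t := 1 / (1 - t)) (by positivity) (by
      rw [div_le_one h1]; linarith)
    apply frontier_notMem hK hI
    convert this using 1
    have e : I + t • (J - I) - J = (-(1 - t)) • (J - I) := by module
    rw [e, smul_smul]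
    have : 1 / (1 - t) * -(1 - t) = -1 := by field_simp
    rw [this]; module
  · by_contra hcon
    push Not at hcon
    have h1 : 0 < t := by linarith
    have := combo_mem hK hI.1 ht (t := 1 / t) (by positivity) (by
      rw [div_le_one h1]; linarith)
    apply frontier_notMem hK hJ
    convert this using 1
    have e : I + t • (J - I) - I = t • (J - I) := by module
    rw [e, smul_smul, one_div_mul_cancel h1.ne']
    module

theorem mem_line_iff {I J B C : Plane} (h : I ≠ J) (hBC : B ≠ C) (hB : ev (cov I J) B = 0)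
    (hC : ev (cov I J) C = 0) (X : Plane) : X ∈ line[ℝ, B, C] ↔ ev (cov I J) X = 0 := by
  rw [mem_affineSpan_pair_iff_exists_lineMap_eq]
  constructor
  · rintro ⟨r, rfl⟩
    rw [AffineMap.lineMap_apply, vsub_eq_sub, vadd_eq_add, add_comm, ev_add_smul, lin_sub, hB, hC]
    ring
  · intro hX
    obtain ⟨b, hb⟩ := (ev_cov_iff h B).mp hB
    obtain ⟨c, hc⟩ := (ev_cov_iff h C).mp hC
    obtain ⟨x, hx⟩ := (ev_cov_iff h X).mp hX
    have hbc : c - b ≠ 0 := by
      intro hbc
      apply hBC
      rw [hb, hc, show b = c by linarith]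
    refine ⟨(x - b) / (c - b), ?_⟩
    rw [AffineMap.lineMap_apply, vsub_eq_sub, vadd_eq_add]
    rw [hb, hc, hx]
    have e : I + c • (J - I) - (I + b • (J - I)) = (c - b) • (J - I) := by module
    rw [e, smul_smul, div_mul_cancel₀ _ hbc]
    module

/-- the covector of the line through `A` and the pole of the chord -/
def SChord.M (c : SChord K) (A : Plane) : Cov := ev c.α A • c.β - ev c.β A • c.α

theorem SChord.ev_M (c : SChord K) (A p : Plane) :
    ev (c.M A) p = ev c.α A * ev c.β p - ev c.β A * ev c.α p := by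
  simp [SChord.M, ev]; ring

theorem finrank_line {A F : Plane} (h : A ≠ F) :
    Module.finrank ℝ (line[ℝ, A, F]).direction = 1 := by
  rw [direction_affineSpan, vectorSpan_pair_rev]
  apply finrank_span_singleton
  exact sub_ne_zero.mpr h.symm

theorem eq_line_of_mem {m : AffineSubspace ℝ Plane} (hm : Module.finrank ℝ m.direction = 1)
    {A F : Plane} (hA : A ∈ m) (hF : F ∈ m) (h : A ≠ F) : m = line[ℝ, A, F] := by
  have hle : line[ℝ, A, F] ≤ m := affineSpan_pair_le_of_mem_of_mem hA hF
  symm
  apply AffineSubspace.eq_of_direction_eq_of_nonempty_of_le _ ⟨A, left_mem_affineSpan_pair ℝ A F⟩ hle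
  apply Submodule.eq_of_le_of_finrank_eq (AffineSubspace.direction_le hle)
  rw [hm, finrank_line h]

/-- For a chord with smooth endpoints and a point `A` off the chord, there is a point `F` of the
chord such that `AF` is the reverse altitude; `F` is the zero on the chord of `M A`. -/
theorem exists_revAlt (hK : IsHilbertDomain K) (c : SChord K) {A B C : Plane} (hA : A ∈ K)
    (hBC : B ≠ C) (hBx : ev c.x B = 0) (hCx : ev c.x C = 0)
    (hAx : ev c.x A ≠ 0) :
    ∃ F : Plane, A ≠ F ∧ ev (c.M A) F = 0 ∧ IsTheReverseAltitude K A B C line[ℝ, A, F] := by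
  have hαA := c.hα.2 A hA
  have hβA := c.hβ.2 A hA
  have hMI : 0 < ev (c.M A) c.I := by
    rw [c.ev_M, c.hα.1]
    have := c.hβ.pos hK c.hJ.1.1 c.hI.1.1 c.ne
    have := mul_pos hαA this
    linarith
  have hMJ : ev (c.M A) c.J < 0 := by
    rw [c.ev_M, c.hβ.1]
    have := c.hα.pos hK c.hI.1.1 c.hJ.1.1 c.ne.symm
    have := mul_pos hβA this
    linarith
  set r := ev (c.M A) c.I / (ev (c.M A) c.I - ev (c.M A) c.J) with hr
  have hden : 0 < ev (c.M A) c.I - ev (c.M A) c.J := by linarith
  have hr0 : 0 < r := div_pos hMI hden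
  have hr1 : r < 1 := by rw [hr, div_lt_one hden]; linarith
  set F := c.I + r • (c.J - c.I) with hF
  have hMF : ev (c.M A) F = 0 := by
    rw [hF, ev_add_smul, lin_sub, hr]
    field_simp
    ring
  have hFK : F ∈ K := strict_seg hK c.hI.1.1 c.hJ.1.1 c.ne hr0 hr1
  have hFx : ev c.x F = 0 := (ev_cov_iff c.ne F).mpr ⟨r, rfl⟩
  have hAF : A ≠ F := by
    intro h; apply hAx; rw [h, hFx]
  have hpoleF : ev c.α A * ev c.β F = ev c.β A * ev c.α F := by
    have := hMF
    rw [c.ev_M] at this
    linarith
  refine ⟨F, hAF, hMF, ⟨⟨finrank_line hAF, A, left_mem_affineSpan_pair ℝ A F, hA⟩,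
    left_mem_affineSpan_pair ℝ A F, F, hFK, ?_, right_mem_affineSpan_pair ℝ A F, ?_⟩, ?_⟩
  · exact (mem_line_iff c.ne hBC hBx hCx F).mpr hFx
  · intro X hX hXl Y hY hYm
    have hXx := (mem_line_iff c.ne hBC hBx hCx X).mp hXl
    obtain ⟨t, ht⟩ := (ev_cov_iff c.ne X).mp hXx
    obtain ⟨ht0, ht1⟩ := param_bounds hK c.hI.1 c.hJ.1 (ht ▸ hX)
    rw [mem_affineSpan_pair_iff_exists_lineMap_eq] at hYm
    obtain ⟨s, hs⟩ := hYm
    have hYs : Y = A + s • (F - A) := by
      rw [← hs, AffineMap.lineMap_apply, vsub_eq_sub, vadd_eq_add, add_comm]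
    have hpole : ev c.α F * ev c.β Y = ev c.β F * ev c.α Y := by
      have eα : ev c.α Y = ev c.α A + s * (ev c.α F - ev c.α A) := by
        rw [hYs, ev_add_smul, lin_sub]
      have eβ : ev c.β Y = ev c.β A + s * (ev c.β F - ev c.β A) := by
        rw [hYs, ev_add_smul, lin_sub]
      rw [eα, eβ]
      linear_combination (s - 1) * hpoleF
    rcases lt_trichotomy t r with hlt | heq | hgt
    · -- X between I and F
      have hX' : X = F + ((r - t) / r) • (c.I - F) := by
        have e : c.I - F = (-r) • (c.J - c.I) := by rw [hF]; module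
        rw [e, smul_smul]
        have : (r - t) / r * -r = t - r := by field_simp; ring
        rw [this, ht, hF]; module
      have hJF : c.J = F + ((1 - r) / r) • (F - c.I) := by
        have e : F - c.I = r • (c.J - c.I) := by rw [hF]; module
        rw [e, smul_smul]
        have : (1 - r) / r * r = 1 - r := by field_simp
        rw [this, hF]; module
      rw [hX']
      exact dist_le_of_pole hK c.hI.1 c.hJ.1 c.hα c.hβ hFK (div_pos (by linarith) hr0) hJF
        (div_pos (by linarith) hr0) (by rw [div_lt_one hr0]; linarith) hY hpole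
    · have : X = F := by rw [ht, hF, heq]
      rw [this]
      have h0 : hilbertDist K F F = 0 := by simp [hilbertDist]
      rw [h0]
      exact hilbertDist_nonneg hK hFK hY
    · have h1r : 0 < 1 - r := by linarith
      have hX' : X = F + ((t - r) / (1 - r)) • (c.J - F) := by
        have e : c.J - F = (1 - r) • (c.J - c.I) := by rw [hF]; module
        rw [e, smul_smul]
        have : (t - r) / (1 - r) * (1 - r) = t - r := by field_simp
        rw [this, ht, hF]; module
      have hIF : c.I = F + (r / (1 - r)) • (F - c.J) := by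
        have e : F - c.J = (-(1 - r)) • (c.J - c.I) := by rw [hF]; module
        rw [e, smul_smul]
        have : r / (1 - r) * -(1 - r) = -r := by field_simp
        rw [this, hF]; module
      rw [hX']
      exact dist_le_of_pole hK c.hJ.1 c.hI.1 c.hβ c.hα hFK (div_pos hr0 h1r) hIF
        (div_pos (by linarith) h1r) (by rw [div_lt_one h1r]; linarith) hY hpole.symm
  · rintro m' ⟨⟨hm1, -⟩, hAm, F', hF'K, hF'l, hF'm, hmin⟩
    have hF'x := (mem_line_iff c.ne hBC hBx hCx F').mp hF'l
    obtain ⟨r', hr'⟩ := (ev_cov_iff c.ne F').mp hF'x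
    obtain ⟨hr'0, hr'1⟩ := param_bounds hK c.hI.1 c.hJ.1 (hr' ▸ hF'K)
    have hAF' : A ≠ F' := by
      intro h; apply hAx; rw [h]; exact hF'x
    have hpole := pole_of_min hK c.hI c.hJ c.hα c.hβ hr'0 hr'1 hr' hF'K (v := A - F') (by
      rintro X hX ⟨t, ht⟩ s hs
      apply hmin X hX _ _ hs
      · have := AffineMap.lineMap_mem s hF'm hAm
        rwa [AffineMap.lineMap_apply, vsub_eq_sub, vadd_eq_add, add_comm] at this
      · exact (mem_line_iff c.ne hBC hBx hCx X).mpr ((ev_cov_iff c.ne X).mpr ⟨t, ht⟩))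
    rw [lin_sub, lin_sub] at hpole
    have hMF' : ev (c.M A) F' = 0 := by
      rw [c.ev_M]; linear_combination -hpole
    have hrr : r' = r := by
      rw [hr', ev_add_smul, lin_sub] at hMF'
      rw [hr, eq_div_iff hden.ne']
      linarith
    have hFF : F' = F := by rw [hr', hF, hrr]
    rw [hFF] at hF'm
    exact eq_line_of_mem hm1 hAm hF'm hAF

theorem det3_zero_of_point {u v w : Cov} {P : Plane} (hu : ev u P = 0) (hv : ev v P = 0)
    (hw : ev w P = 0) : det3 u v w = 0 := by
  unfold ev at hu hv hw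
  unfold det3
  linear_combination (v 0 * w 1 - v 1 * w 0) * hu - (u 0 * w 1 - u 1 * w 0) * hv +
    (u 0 * v 1 - u 1 * v 0) * hw

theorem det3_zero_of_dir {u v w : Cov} {d : Plane} (hd : d ≠ 0) (hu : lin u d = 0)
    (hv : lin v d = 0) (hw : lin w d = 0) : det3 u v w = 0 := by
  unfold lin at hu hv hw
  have h0 : det3 u v w * d 0 = 0 := by
    unfold det3
    linear_combination (v 1 * w 2 - v 2 * w 1) * hu - (u 1 * w 2 - u 2 * w 1) * hv +
      (u 1 * v 2 - u 2 * v 1) * hw
  have h1 : det3 u v w * d 1 = 0 := by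
    unfold det3
    linear_combination -(v 0 * w 2 - v 2 * w 0) * hu + (u 0 * w 2 - u 2 * w 0) * hv -
      (u 0 * v 2 - u 2 * v 0) * hw
  by_contra hne
  apply hd
  ext i; fin_cases i
  · simpa [hne] using h0
  · simpa [hne] using h1

theorem ev_zero_on_line {u : Cov} {A F P : Plane} (hA : ev u A = 0) (hF : ev u F = 0)
    (hP : P ∈ line[ℝ, A, F]) : ev u P = 0 := by
  rw [mem_affineSpan_pair_iff_exists_lineMap_eq] at hP
  obtain ⟨s, rfl⟩ := hP
  rw [AffineMap.lineMap_apply, vsub_eq_sub, vadd_eq_add, add_comm, ev_add_smul, lin_sub, hA, hF]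
  ring

theorem lin_zero_on_dir {u : Cov} {A F d : Plane} (hA : ev u A = 0) (hF : ev u F = 0)
    (hd : d ∈ (line[ℝ, A, F]).direction) : lin u d = 0 := by
  rw [direction_affineSpan, vectorSpan_pair_rev, Submodule.mem_span_singleton] at hd
  obtain ⟨k, rfl⟩ := hd
  rw [lin_smul, vsub_eq_sub, lin_sub, hA, hF]; ring

theorem det3_of_pencil {u v w : Cov} {A B C F G H : Plane} (hAF : A ≠ F)
    (h1 : ev u A = 0) (h2 : ev u F = 0) (h3 : ev v B = 0) (h4 : ev v G = 0)
    (h5 : ev w C = 0) (h6 : ev w H = 0)
    (hp : IsPencil line[ℝ, A, F] line[ℝ, B, G] line[ℝ, C, H]) : det3 u v w = 0 := by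
  rcases hp with ⟨P, hP1, hP2, hP3⟩ | ⟨hp1, hp2⟩
  · exact det3_zero_of_point (ev_zero_on_line h1 h2 hP1) (ev_zero_on_line h3 h4 hP2)
      (ev_zero_on_line h5 h6 hP3)
  · have d1 := hp1.direction_eq
    have d2 := hp2.direction_eq
    have hmem : F - A ∈ (line[ℝ, A, F]).direction := by
      rw [direction_affineSpan, vectorSpan_pair_rev]
      exact Submodule.mem_span_singleton_self _
    apply det3_zero_of_dir (sub_ne_zero.mpr hAF.symm) (lin_zero_on_dir h1 h2 hmem)
    · exact lin_zero_on_dir h3 h4 (d1 ▸ hmem)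
    · exact lin_zero_on_dir h5 h6 (d2 ▸ d1 ▸ hmem)

/-- The hypothesis of the problem, in its weakest form. -/
def RevAltHyp (K : Set Plane) : Prop :=
  ∀ A ∈ K, ∀ B ∈ K, ∀ C ∈ K, ¬ Collinear ℝ {A, B, C} → ∀ mA mB mC : AffineSubspace ℝ Plane,
    IsTheReverseAltitude K A B C mA → IsTheReverseAltitude K B C A mB →
    IsTheReverseAltitude K C A B mC → IsPencil mA mB mC

theorem not_collinear_of_ev {u : Cov} {A B C : Plane} (hB : ev u B = 0) (hC : ev u C = 0)
    (hA : ev u A ≠ 0) (hBC : B ≠ C) : ¬ Collinear ℝ {A, B, C} := by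
  intro h
  have h' : Collinear ℝ {B, C, A} := by
    have : ({B, C, A} : Set Plane) = {A, B, C} := by
      ext x; simp; tauto
    rwa [this]
  have hmem := h'.mem_affineSpan_of_mem_of_ne (p₁ := B) (p₂ := C) (p₃ := A) (by simp) (by simp)
    (by simp) hBC
  exact hA (ev_zero_on_line hB hC hmem)

/-- pairing of a covector with the pole of a chord -/
def SChord.B (c : SChord K) (y : Cov) : ℝ := det3 y c.α c.β

/-- The Chasles relation for three smooth chords whose lines form a triangle in `K`. -/
theorem chasles (hK : IsHilbertDomain K) (h : RevAltHyp K) (a b c : SChord K) {A B C : Plane}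
    (hA : A ∈ K) (hB : B ∈ K) (hC : C ∈ K) (hbA : ev b.x A = 0) (hcA : ev c.x A = 0)
    (haB : ev a.x B = 0) (hcB : ev c.x B = 0) (haC : ev a.x C = 0) (hbC : ev b.x C = 0)
    (haA : ev a.x A ≠ 0) (hbB : ev b.x B ≠ 0) (hcC : ev c.x C ≠ 0) :
    a.B c.x * b.B a.x * c.B b.x = a.B b.x * b.B c.x * c.B a.x := by
  have hAB : A ≠ B := fun e => haA (e ▸ haB)
  have hBC : B ≠ C := fun e => hbB (e ▸ hbC)
  have hCA : C ≠ A := fun e => hcC (e ▸ hcA)
  obtain ⟨F, hAF, hMF, hF⟩ := exists_revAlt hK a hA hBC haB haC haA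
  obtain ⟨G, hBG, hMG, hG⟩ := exists_revAlt hK b hB hCA hbC hbA hbB
  obtain ⟨H, hCH, hMH, hH⟩ := exists_revAlt hK c hC hAB hcA hcB hcC
  have hnc : ¬ Collinear ℝ {A, B, C} := not_collinear_of_ev haB haC haA hBC
  have hp := h A hA B hB C hC hnc _ _ _ hF hG hH
  have hdet := det3_of_pencil (u := a.M A) (v := b.M B) (w := c.M C) hAF
    (by rw [a.ev_M]; ring) hMF (by rw [b.ev_M]; ring) hMG (by rw [c.ev_M]; ring) hMH hp
  -- homogeneous coordinates of the vertices
  set x := a.x with hx
  set y := b.x with hy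
  set z := c.x with hz
  -- determinant of the side lines is nonzero
  have hδA : y 0 * z 1 - y 1 * z 0 ≠ 0 := by
    intro h0
    have e1 : y 0 * (C 0 - A 0) + y 1 * (C 1 - A 1) = 0 := by
      unfold ev at hbA hbC
      linear_combination hbC - hbA
    have e2 : z 0 * (C 0 - A 0) + z 1 * (C 1 - A 1) = ev z C := by
      unfold ev at hcA ⊢
      linear_combination -hcA
    have e3 : y 0 = 0 := by
      have : ev z C * y 0 = 0 := by
        rw [← e2]; linear_combination z 0 * e1 + (C 1 - A 1) * h0
      rcases mul_eq_zero.mp this with h' | h'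
      · exact absurd h' hcC
      · exact h'
    have e4 : y 1 = 0 := by
      have : ev z C * y 1 = 0 := by
        rw [← e2]; linear_combination z 1 * e1 - (C 0 - A 0) * h0
      rcases mul_eq_zero.mp this with h' | h'
      · exact absurd h' hcC
      · exact h'
    apply b.ne
    have e5 : b.I 1 - b.J 1 = 0 := e3
    have e6 : b.J 0 - b.I 0 = 0 := e4
    ext i; fin_cases i
    · simp; linarith
    · simp; linarith
  have hD : det3 x y z ≠ 0 := by
    have hdA : det3 x y z = ev x A * (y 0 * z 1 - y 1 * z 0) := by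
      unfold ev at hbA hcA ⊢
      unfold det3
      linear_combination (-(x 0 * z 1) + x 1 * z 0) * hbA + (x 0 * y 1 - x 1 * y 0) * hcA
    rw [hdA]
    exact mul_ne_zero haA hδA
  -- scaled covectors
  have keyA : ∀ i, (y 0 * z 1 - y 1 * z 0) * a.M A i = y i * a.B z - z i * a.B y := by
    have h1 : (y 0 * z 1 - y 1 * z 0) * A 0 = y 1 * z 2 - y 2 * z 1 := by
      unfold ev at hbA hcA
      linear_combination z 1 * hbA - y 1 * hcA
    have h2 : (y 0 * z 1 - y 1 * z 0) * A 1 = y 2 * z 0 - y 0 * z 2 := by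
      unfold ev at hbA hcA
      linear_combination -z 0 * hbA + y 0 * hcA
    intro i
    have hM : a.M A i = ev a.α A * a.β i - ev a.β A * a.α i := by simp [SChord.M]
    rw [hM]
    have e1 : (y 0 * z 1 - y 1 * z 0) * ev a.α A = det3 a.α y z := by
      unfold ev det3
      linear_combination a.α 0 * h1 + a.α 1 * h2
    have e2 : (y 0 * z 1 - y 1 * z 0) * ev a.β A = det3 a.β y z := by
      unfold ev det3
      linear_combination a.β 0 * h1 + a.β 1 * h2
    have e3 : (y 0 * z 1 - y 1 * z 0) * (ev a.α A * a.β i - ev a.β A * a.α i)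
        = det3 a.α y z * a.β i - det3 a.β y z * a.α i := by
      rw [← e1, ← e2]; ring
    rw [e3]
    unfold SChord.B det3
    fin_cases i <;> simp <;> ring
  have keyB : ∀ i, (z 0 * x 1 - z 1 * x 0) * b.M B i = z i * b.B x - x i * b.B z := by
    have h1 : (z 0 * x 1 - z 1 * x 0) * B 0 = z 1 * x 2 - z 2 * x 1 := by
      unfold ev at hcB haB
      linear_combination x 1 * hcB - z 1 * haB
    have h2 : (z 0 * x 1 - z 1 * x 0) * B 1 = z 2 * x 0 - z 0 * x 2 := by
      unfold ev at hcB haB
      linear_combination -x 0 * hcB + z 0 * haB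
    intro i
    have hM : b.M B i = ev b.α B * b.β i - ev b.β B * b.α i := by simp [SChord.M]
    rw [hM]
    have e1 : (z 0 * x 1 - z 1 * x 0) * ev b.α B = det3 b.α z x := by
      unfold ev det3
      linear_combination b.α 0 * h1 + b.α 1 * h2
    have e2 : (z 0 * x 1 - z 1 * x 0) * ev b.β B = det3 b.β z x := by
      unfold ev det3
      linear_combination b.β 0 * h1 + b.β 1 * h2
    have e3 : (z 0 * x 1 - z 1 * x 0) * (ev b.α B * b.β i - ev b.β B * b.α i)
        = det3 b.α z x * b.β i - det3 b.β z x * b.α i := by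
      rw [← e1, ← e2]; ring
    rw [e3]
    unfold SChord.B det3
    fin_cases i <;> simp <;> ring
  have keyC : ∀ i, (x 0 * y 1 - x 1 * y 0) * c.M C i = x i * c.B y - y i * c.B x := by
    have h1 : (x 0 * y 1 - x 1 * y 0) * C 0 = x 1 * y 2 - x 2 * y 1 := by
      unfold ev at haC hbC
      linear_combination y 1 * haC - x 1 * hbC
    have h2 : (x 0 * y 1 - x 1 * y 0) * C 1 = x 2 * y 0 - x 0 * y 2 := by
      unfold ev at haC hbC
      linear_combination -y 0 * haC + x 0 * hbC
    intro i
    have hM : c.M C i = ev c.α C * c.β i - ev c.β C * c.α i := by simp [SChord.M]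
    rw [hM]
    have e1 : (x 0 * y 1 - x 1 * y 0) * ev c.α C = det3 c.α x y := by
      unfold ev det3
      linear_combination c.α 0 * h1 + c.α 1 * h2
    have e2 : (x 0 * y 1 - x 1 * y 0) * ev c.β C = det3 c.β x y := by
      unfold ev det3
      linear_combination c.β 0 * h1 + c.β 1 * h2
    have e3 : (x 0 * y 1 - x 1 * y 0) * (ev c.α C * c.β i - ev c.β C * c.α i)
        = det3 c.α x y * c.β i - det3 c.β x y * c.α i := by
      rw [← e1, ← e2]; ring
    rw [e3]
    unfold SChord.B det3
    fin_cases i <;> simp <;> ring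
  have hprod : (y 0 * z 1 - y 1 * z 0) * (z 0 * x 1 - z 1 * x 0) * (x 0 * y 1 - x 1 * y 0) *
      det3 (a.M A) (b.M B) (c.M C) =
      det3 x y z * (a.B z * b.B x * c.B y - a.B y * b.B z * c.B x) := by
    have e : (y 0 * z 1 - y 1 * z 0) * (z 0 * x 1 - z 1 * x 0) * (x 0 * y 1 - x 1 * y 0) *
      det3 (a.M A) (b.M B) (c.M C) =
      det3 (fun i => (y 0 * z 1 - y 1 * z 0) * a.M A i)
        (fun i => (z 0 * x 1 - z 1 * x 0) * b.M B i)
        (fun i => (x 0 * y 1 - x 1 * y 0) * c.M C i) := by
      unfold det3; ring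
    rw [e]
    simp only [keyA, keyB, keyC]
    generalize a.B z = p1
    generalize a.B y = p2
    generalize b.B x = p3
    generalize b.B z = p4
    generalize c.B y = p5
    generalize c.B x = p6
    unfold det3
    ring
  rw [hdet, mul_zero] at hprod
  rcases mul_eq_zero.mp hprod.symm with h' | h'
  · exact absurd h' hD
  · linarith

end Pool.Agent.Helper78.HP
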