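import Pool.Agent.Helper78.HP.Alg

/-! # Selecting chords in general position -/

open scoped Affine Topology
open Filter

namespace Pool.Agent.Helper78.HP

variable {K : Set Plane}

theorem avoid {E : ℝ → Plane} (hE : Function.Injective E) {Bad : Set Plane} (hB : Bad.Countable)
    {a b : ℝ} (hab : a < b) : ∃ s, a < s ∧ s < b ∧ E s ∉ Bad := by
  have hc : (E ⁻¹' Bad).Countable := hB.preimage_of_injOn (hE.injOn)
  obtain ⟨s, hs1, hs2⟩ := (hc.dense_compl ℝ).exists_mem_open isOpen_Ioo (Set.nonempty_Ioo.mpr hab)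
  exact ⟨s, hs2.1, hs2.2, hs1⟩

theorem eq_of_indep {d1 d2 : Plane} (hd : d1 0 * d2 1 - d1 1 * d2 0 ≠ 0) {a b a' b' : ℝ}
    (h : a • d1 + b • d2 = a' • d1 + b' • d2) : a = a' ∧ b = b' := by
  have h0 := congrArg (fun v : Plane => v 0) h
  have h1 := congrArg (fun v : Plane => v 1) h
  simp at h0 h1
  constructor
  · have : (a - a') * (d1 0 * d2 1 - d1 1 * d2 0) = 0 := by
      linear_combination d2 1 * h0 - d2 0 * h1
    rcases mul_eq_zero.mp this with h' | h'
    · linarith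
    · exact absurd h' hd
  · have : (b - b') * (d1 0 * d2 1 - d1 1 * d2 0) = 0 := by
      linear_combination d1 0 * h1 - d1 1 * h0
    rcases mul_eq_zero.mp this with h' | h'
    · linarith
    · exact absurd h' hd

theorem dir_ne_zero {d1 d2 : Plane} (hd : d1 0 * d2 1 - d1 1 * d2 0 ≠ 0) (s : ℝ) :
    d1 + s • d2 ≠ 0 := by
  intro h
  have : (1 : ℝ) • d1 + s • d2 = (0 : ℝ) • d1 + (0 : ℝ) • d2 := by
    rw [one_smul, h]; simp
  have := (eq_of_indep hd this).1
  norm_num at this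

/-- boundary points in open sectors, avoiding countable sets -/
theorem sector (hK : IsHilbertDomain K) {O d1 d2 : Plane} (hO : O ∈ K)
    (hd : d1 0 * d2 1 - d1 1 * d2 0 ≠ 0) {Bad : Set Plane} (hB : Bad.Countable) :
    ∃ z ∈ frontier K, z ∉ Bad ∧ ∃ s t : ℝ, 0 < s ∧ 0 < t ∧ z = O + s • d1 + t • d2 := by
  have hinj : Function.Injective
      (fun s : ℝ => O + exitTime K O (d1 + s • d2) • (d1 + s • d2)) := by
    intro s s' hss
    simp only at hss
    have h1 := add_left_cancel hss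
    have p1 := exitTime_pos hK (dir_ne_zero hd s) hO
    have p2 := exitTime_pos hK (dir_ne_zero hd s') hO
    rw [smul_add, smul_smul, smul_add, smul_smul] at h1
    obtain ⟨e1, e2⟩ := eq_of_indep hd h1
    rw [e1] at e2
    exact mul_left_cancel₀ p2.ne' e2
  obtain ⟨s, hs0, hs1, hs⟩ := avoid hinj hB (show (0 : ℝ) < 1 by norm_num)
  have hT := exitTime_pos hK (dir_ne_zero hd s) hO
  refine ⟨_, exit_mem_frontier hK (dir_ne_zero hd s) hO, hs, exitTime K O (d1 + s • d2),
    exitTime K O (d1 + s • d2) * s, hT, mul_pos hT hs0, ?_⟩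
  rw [smul_add, smul_smul]; abel

theorem countable_of_subsingleton {S : Set Plane} (h : S.Subsingleton) : S.Countable :=
  h.countable

theorem excl_line (hK : IsHilbertDomain K) {I : Plane} (hI : I ∈ frontier K) {q : Fin 3 → ℝ}
    (hq : ¬ ∃ k : ℝ, q = k • hom I) :
    {J | J ∈ frontier K ∧ J ≠ I ∧ det3 (hom I) (hom J) q = 0}.Countable := by
  apply countable_of_subsingleton
  rintro J ⟨hJ, hJI, h1⟩ J' ⟨hJ', hJ'I, h2⟩
  by_contra hne
  obtain ⟨u, hu⟩ := exists_support hK hI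
  obtain ⟨v, hv⟩ := exists_support hK hJ
  obtain ⟨w, hw⟩ := exists_support hK hJ'
  have hdet := det_support hK hI.1 hJ.1 hJ'.1 hu hv hw hJI.symm hne hJ'I
  have hd : det3 (hom I) (hom J) (hom J') ≠ 0 := by
    intro h; rw [h, mul_zero] at hdet; exact lt_irrefl _ hdet
  apply hq
  refine ⟨det3 q (hom J) (hom J') / det3 (hom I) (hom J) (hom J'), ?_⟩
  have h2' : det3 (hom I) q (hom J') = 0 := by
    rw [← neg_eq_zero, ← h2]; unfold det3; ring
  ext i
  have := cramer (hom I) (hom J) (hom J') q i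
  rw [h2', h1, zero_mul, zero_mul, add_zero, add_zero] at this
  simp only [Pi.smul_apply, smul_eq_mul]
  rw [div_mul_eq_mul_div, eq_div_iff hd]
  linarith

theorem excl_tangent (hK : IsHilbertDomain K) {I : Plane} (hI : I ∈ frontier K) {t y : Cov}
    (ht : IsSupport K I t) (hy : ¬ ∃ k : ℝ, y = k • t) :
    {J | J ∈ frontier K ∧ J ≠ I ∧ ∃ β, IsSupport K J β ∧ det3 y t β = 0}.Countable := by
  apply countable_of_subsingleton
  rintro J ⟨hJ, hJI, β, hβ, h1⟩ J' ⟨hJ', hJ'I, β', hβ', h2⟩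
  by_contra hne
  have hdet := det_support hK hI.1 hJ.1 hJ'.1 ht hβ hβ' hJI.symm hne hJ'I
  have hd : det3 t β β' ≠ 0 := by
    intro h; rw [h, zero_mul] at hdet; exact lt_irrefl _ hdet
  apply hy
  refine ⟨det3 y β β' / det3 t β β', ?_⟩
  have h2' : det3 t y β' = 0 := by
    rw [← neg_eq_zero, ← h2]; unfold det3; ring
  have h1' : det3 t β y = 0 := by
    rw [← h1]; unfold det3; ring
  ext i
  have := cramer t β β' y i
  rw [h2', h1', zero_mul, zero_mul, add_zero, add_zero] at this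
  simp only [Pi.smul_apply, smul_eq_mul]
  rw [div_mul_eq_mul_div, eq_div_iff hd]
  linarith

theorem excl_support (hK : IsHilbertDomain K) {κ : Cov} (hκ : κ ≠ 0) :
    {I | I ∈ frontier K ∧ ∃ t, IsSupport K I t ∧ ∃ k : ℝ, κ = k • t}.Countable := by
  apply countable_of_subsingleton
  rintro I ⟨hI, t, ht, k, hk⟩ I' ⟨hI', t', ht', k', hk'⟩
  by_contra hne
  have h1 : ev κ I = 0 := by
    rw [hk]
    have : ev (k • t) I = k * ev t I := by simp [ev]; ring
    rw [this, ht.1, mul_zero]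
  have h2 : ev κ I = k' * ev t' I := by
    rw [hk']; simp [ev]; ring
  have h3 := ht'.pos hK hI'.1 hI.1 hne
  rw [h1] at h2
  have : k' = 0 := by
    rcases mul_eq_zero.mp h2.symm with h | h
    · exact h
    · linarith
  apply hκ
  rw [hk', this, zero_smul]

theorem lin_indep_of {u : Cov} {v w : Plane} (h1 : lin u v = 0) (hv : v ≠ 0) (h2 : lin u w ≠ 0) :
    v 0 * w 1 - v 1 * w 0 ≠ 0 := by
  intro h
  unfold lin at h1
  have e0 : v 0 = 0 := by
    have : lin u w * v 0 = 0 := by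
      unfold lin; linear_combination w 0 * h1 + u 1 * h
    rcases mul_eq_zero.mp this with h' | h'
    · exact absurd h' h2
    · exact h'
  have e1 : v 1 = 0 := by
    have : lin u w * v 1 = 0 := by
      unfold lin; linear_combination w 1 * h1 - u 0 * h
    rcases mul_eq_zero.mp this with h' | h'
    · exact absurd h' h2
    · exact h'
  apply hv
  ext i; fin_cases i
  · simpa using e0
  · simpa using e1

theorem dot_cov (I J : Plane) (m : Fin 3 → ℝ) : dot (cov I J) m = det3 (hom I) (hom J) m := by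
  unfold dot cov det3; simp; ring

theorem cov_ne_zero {I J : Plane} (h : I ≠ J) : cov I J ≠ 0 := by
  intro h0
  have e0 := congrFun h0 0
  have e1 := congrFun h0 1
  simp [cov] at e0 e1
  apply h
  ext i; fin_cases i
  · simp; linarith
  · simp; linarith

/-- a chord crosses a line that separates its endpoints, inside `K` -/
theorem exists_cross (hK : IsHilbertDomain K) {I J : Plane} (hI : I ∈ frontier K)
    (hJ : J ∈ frontier K) (hne : I ≠ J) {u : Cov} (h : ev u I * ev u J < 0) :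
    ∃ X ∈ K, ev (cov I J) X = 0 ∧ ev u X = 0 := by
  have hden : ev u I - ev u J ≠ 0 := by
    intro h0
    have : ev u I = ev u J := by linarith
    rw [this] at h
    nlinarith [mul_self_nonneg (ev u J)]
  set r := ev u I / (ev u I - ev u J) with hr
  have hr01 : 0 < r ∧ r < 1 := by
    rcases lt_or_gt_of_ne hden with hlt | hgt
    · have hI0 : ev u I < 0 := by
        by_contra hcon
        push Not at hcon
        have : 0 < ev u J := by linarith
        have := mul_nonneg hcon this.le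
        linarith
      have hJ0 : 0 < ev u J := by
        by_contra hcon
        push Not at hcon
        have := mul_nonneg_of_nonpos_of_nonpos hI0.le hcon
        linarith
      constructor
      · exact div_pos_of_neg_of_neg hI0 hlt
      · rw [hr, div_lt_one_of_neg hlt]; linarith
    · have hI0 : 0 < ev u I := by
        by_contra hcon
        push Not at hcon
        have : ev u J < 0 := by linarith
        have := mul_nonneg_of_nonpos_of_nonpos hcon this.le
        linarith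
      have hJ0 : ev u J < 0 := by
        by_contra hcon
        push Not at hcon
        have := mul_nonneg hI0.le hcon
        linarith
      constructor
      · exact div_pos hI0 hgt
      · rw [hr, div_lt_one hgt]; linarith
  refine ⟨I + r • (J - I), strict_seg hK hI.1 hJ.1 hne hr01.1 hr01.2,
    (ev_cov_iff hne _).mpr ⟨r, rfl⟩, ?_⟩
  rw [ev_add_smul, lin_sub, hr]
  field_simp
  ring

/-- Three smooth chords whose lines form a triangle with vertices in `K`. -/
structure Tri (K : Set Plane) (a b c : SChord K) (A B C : Plane) : Prop where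
  hA : A ∈ K
  hB : B ∈ K
  hC : C ∈ K
  hbA : ev b.x A = 0
  hcA : ev c.x A = 0
  haB : ev a.x B = 0
  hcB : ev c.x B = 0
  haC : ev a.x C = 0
  hbC : ev b.x C = 0
  hD : det3 a.x b.x c.x ≠ 0

theorem Tri.rot {a b c : SChord K} {A B C : Plane} (h : Tri K a b c A B C) :
    Tri K b c a B C A where
  hA := h.hB
  hB := h.hC
  hC := h.hA
  hbA := h.hcB
  hcA := h.haB
  haB := h.hbC
  hcB := h.haC
  haC := h.hbA
  hbC := h.hcA
  hD := by
    have := h.hD
    intro h0; apply this; rw [← h0]; unfold det3; ring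

theorem Tri.evA {a b c : SChord K} {A B C : Plane} (h : Tri K a b c A B C) : ev a.x A ≠ 0 :=
  fun h0 => h.hD (det3_zero_of_point h0 h.hbA h.hcA)

theorem Tri.evB {a b c : SChord K} {A B C : Plane} (h : Tri K a b c A B C) : ev b.x B ≠ 0 :=
  fun h0 => h.hD (det3_zero_of_point h.haB h0 h.hcB)

theorem Tri.evC {a b c : SChord K} {A B C : Plane} (h : Tri K a b c A B C) : ev c.x C ≠ 0 :=
  fun h0 => h.hD (det3_zero_of_point h.haC h.hbC h0)

/-- Existence of a base triangle in general position. -/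
theorem exists_base (hK : IsHilbertDomain K) : ∃ (a b c : SChord K) (A B C : Plane),
    Tri K a b c A B C ∧ dot b.x a.P ≠ 0 ∧ dot a.x b.P ≠ 0 ∧ dot c.x a.P ≠ 0 ∧ dot c.x b.P ≠ 0 ∧
    dot a.x c.P ≠ 0 ∧ dot b.x c.P ≠ 0 ∧ det3 a.P b.P c.P ≠ 0 := by
  have hcor := countable_corners hK
  have smooth_of : ∀ z ∈ frontier K, z ∉ {z | z ∈ frontier K ∧ ¬ IsSmooth K z} → IsSmooth K z := by
    intro z hz hz'
    by_contra hcon
    exact hz' ⟨hz, hcon⟩
  obtain ⟨O0, hO0⟩ := hK.nonempty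
  -- chord a
  obtain ⟨Ia, hIaf, hIab, s1, t1, hs1, ht1, hIa⟩ := sector hK hO0
    (d1 := EuclideanSpace.single 0 1) (d2 := EuclideanSpace.single 1 1) (by simp) hcor
  obtain ⟨Ja, hJaf, hJab, s2, t2, hs2, ht2, hJa⟩ := sector hK hO0
    (d1 := -EuclideanSpace.single 0 1) (d2 := -EuclideanSpace.single 1 1) (by simp) hcor
  have hneA : Ia ≠ Ja := by
    intro h
    have := congrArg (fun v : Plane => v 0) (hIa.symm.trans (h.trans hJa))
    simp at this
    linarith
  obtain ⟨αa, hαa⟩ := exists_support hK hIaf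
  obtain ⟨βa, hβa⟩ := exists_support hK hJaf
  let a : SChord K := ⟨Ia, Ja, αa, βa, smooth_of _ hIaf hIab, smooth_of _ hJaf hJab, hneA, hαa, hβa⟩
  have hax : a.x = cov Ia Ja := rfl
  -- a point of the chord a
  set M := Ia + (1 / 2 : ℝ) • (Ja - Ia) with hM
  have hMK : M ∈ K := strict_seg hK hIaf.1 hJaf.1 hneA (by norm_num) (by norm_num)
  have hMa : ev a.x M = 0 := (ev_cov_iff hneA M).mpr ⟨1 / 2, rfl⟩
  have hdne : Ja - Ia ≠ 0 := sub_ne_zero.mpr hneA.symm
  set n : Plane := !₂[-(Ja 1 - Ia 1), Ja 0 - Ia 0] with hn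
  have hn0 : n 0 = -(Ja 1 - Ia 1) := rfl
  have hn1 : n 1 = Ja 0 - Ia 0 := rfl
  have hlinn : lin a.x n = (Ja 0 - Ia 0) ^ 2 + (Ja 1 - Ia 1) ^ 2 := by
    have e0 : a.x 0 = Ia 1 - Ja 1 := rfl
    have e1 : a.x 1 = Ja 0 - Ia 0 := rfl
    unfold lin
    rw [e0, e1, hn0, hn1]; ring
  have hlinn_pos : 0 < lin a.x n := by
    rw [hlinn]
    rcases lt_or_eq_of_le (add_nonneg (sq_nonneg (Ja 0 - Ia 0)) (sq_nonneg (Ja 1 - Ia 1))) with h | h
    · exact h
    · exfalso; apply hneA
      have h0 : Ja 0 - Ia 0 = 0 := by nlinarith [sq_nonneg (Ja 0 - Ia 0), sq_nonneg (Ja 1 - Ia 1)]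
      have h1 : Ja 1 - Ia 1 = 0 := by nlinarith [sq_nonneg (Ja 0 - Ia 0), sq_nonneg (Ja 1 - Ia 1)]
      ext i; fin_cases i
      · simp; linarith
      · simp; linarith
  have hlind : lin a.x (Ja - Ia) = 0 := by
    rw [lin_sub, hax, ev_cov_left, ev_cov_right]; ring
  have hindep1 : n 0 * (n + (Ja - Ia)) 1 - n 1 * (n + (Ja - Ia)) 0 ≠ 0 := by
    have := lin_indep_of hlind hdne hlinn_pos.ne'
    intro h; apply this
    simp at h
    simp
    linarith
  obtain ⟨Ib, hIbf, hIbb, s3, t3, hs3, ht3, hIb⟩ := sector hK hMK hindep1 hcor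
  have hIba : 0 < ev a.x Ib := by
    rw [hIb, ev_add_smul, ev_add_smul, hMa, lin_add, hlind]
    have := mul_pos hs3 hlinn_pos
    have := mul_pos ht3 hlinn_pos
    linarith
  obtain ⟨αb, hαb⟩ := exists_support hK hIbf
  have hneIaIb : Ia ≠ Ib := by
    intro h; rw [← h, hax, ev_cov_left] at hIba; exact lt_irrefl _ hIba
  have hneJaIb : Ja ≠ Ib := by
    intro h; rw [← h, hax, ev_cov_right] at hIba; exact lt_irrefl _ hIba
  have hPa := a.P_ne hK
  have bad1 : ¬ ∃ k : ℝ, a.P = k • hom Ib := by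
    rintro ⟨k, hk⟩
    have h1 := a.P_α
    rw [hk] at h1
    have h2 : dot a.α (k • hom Ib) = k * ev a.α Ib := by
      rw [← dot_hom]; unfold dot; simp; ring
    rw [h2] at h1
    have h3 := hαa.pos hK hIaf.1 hIbf.1 hneIaIb.symm
    rcases mul_eq_zero.mp h1 with h | h
    · apply hPa; rw [hk, h, zero_smul]
    · exact absurd h h3.ne'
  have bad2 : ¬ ∃ k : ℝ, a.x = k • αb := by
    rintro ⟨k, hk⟩
    have h1 : ev a.x M = k * ev αb M := by rw [hk]; simp [ev]; ring
    rw [hMa] at h1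
    rcases mul_eq_zero.mp h1.symm with h | h
    · apply cov_ne_zero hneA; rw [← hax, hk, h, zero_smul]
    · exact absurd h (hαb.2 M hMK).ne'
  have hindep2 : (-n) 0 * (-(n + (Ja - Ia))) 1 - (-n) 1 * (-(n + (Ja - Ia))) 0 ≠ 0 := by
    intro h; apply hindep1
    simp at h ⊢
    linarith
  obtain ⟨Jb, hJbf, hJbb, s4, t4, hs4, ht4, hJb⟩ := sector hK hMK hindep2
    ((hcor.union (excl_line hK hIbf bad1)).union (excl_tangent hK hIbf hαb bad2))
  simp only [Set.mem_union, not_or] at hJbb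
  obtain ⟨⟨hJbs, hJb1⟩, hJb2⟩ := hJbb
  have hJba : ev a.x Jb < 0 := by
    have e1 : lin a.x (-n) = - lin a.x n := by simp [lin]; ring
    have e2 : lin a.x (-(n + (Ja - Ia))) = - lin a.x n := by
      have : lin a.x (-(n + (Ja - Ia))) = - lin a.x n - lin a.x (Ja - Ia) := by simp [lin]; ring
      rw [this, hlind]; ring
    rw [hJb, ev_add_smul, ev_add_smul, hMa, e1, e2]
    have := mul_pos hs4 hlinn_pos
    have := mul_pos ht4 hlinn_pos
    linarith
  have hneB : Ib ≠ Jb := by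
    intro h; rw [h] at hIba; linarith
  obtain ⟨βb, hβb⟩ := exists_support hK hJbf
  let b : SChord K := ⟨Ib, Jb, αb, βb, smooth_of _ hIbf hIbb, smooth_of _ hJbf hJbs, hneB, hαb, hβb⟩
  have hbx : b.x = cov Ib Jb := rfl
  have nz1 : dot b.x a.P ≠ 0 := by
    intro h
    apply hJb1
    refine ⟨hJbf, hneB.symm, ?_⟩
    rw [← dot_cov]; exact h
  have nz2 : dot a.x b.P ≠ 0 := by
    intro h
    apply hJb2
    refine ⟨hJbf, hneB.symm, βb, hβb, ?_⟩
    rw [b.dot_P] at h
    exact h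
  have hneIaJb : Ia ≠ Jb := by
    intro h; rw [← h, hax, ev_cov_left] at hJba; exact lt_irrefl _ hJba
  have hneJaJb : Ja ≠ Jb := by
    intro h; rw [← h, hax, ev_cov_right] at hJba; exact lt_irrefl _ hJba
  -- the vertex C = a ∩ b
  obtain ⟨C, hCK, hCb, hCa⟩ := exists_cross hK hIbf hJbf hneB
    (mul_neg_of_pos_of_neg hIba hJba)
  rw [← hbx] at hCb
  obtain ⟨τ, hτ⟩ := (ev_cov_iff hneA C).mp hCa
  obtain ⟨hτ0, hτ1⟩ := param_bounds hK hIaf hJaf (hτ ▸ hCK)
  -- the two lines are not parallel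
  have hlinJI : lin a.x (Jb - Ib) ≠ 0 := by
    rw [lin_sub]; linarith
  have hpar := lin_indep_of hlind hdne hlinJI
  have hδab : a.x 0 * b.x 1 - a.x 1 * b.x 0 ≠ 0 := by
    have e : a.x 0 * b.x 1 - a.x 1 * b.x 0 =
        (Ja - Ia) 0 * (Jb - Ib) 1 - (Ja - Ia) 1 * (Jb - Ib) 0 := by
      rw [hax, hbx]; simp [cov]; ring
    rw [e]; exact hpar
  have hbIa : ev b.x Ia ≠ 0 := by
    intro h0
    -- then also b vanishes at Ja
    have h1 : ev b.x Ja = 0 := by
      rw [hτ, ev_add_smul, lin_sub, h0] at hCb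
      have : τ * ev b.x Ja = 0 := by linarith
      rcases mul_eq_zero.mp this with h | h
      · linarith
      · exact h
    have h2 : lin b.x (Ja - Ia) = 0 := by rw [lin_sub, h0, h1]; ring
    have h3 : lin b.x (Jb - Ib) = 0 := by rw [lin_sub, hbx, ev_cov_left, ev_cov_right]; ring
    apply hδab
    unfold lin at h2 h3 hlind
    by_contra hcon
    have hb0 : b.x 0 = 0 := by
      have : b.x 0 * ((Ja - Ia) 0 * (Jb - Ib) 1 - (Ja - Ia) 1 * (Jb - Ib) 0) = 0 := by
        linear_combination (Jb - Ib) 1 * h2 - (Ja - Ia) 1 * h3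
      rcases mul_eq_zero.mp this with h | h
      · exact h
      · exact absurd h hpar
    have hb1 : b.x 1 = 0 := by
      have : b.x 1 * ((Ja - Ia) 0 * (Jb - Ib) 1 - (Ja - Ia) 1 * (Jb - Ib) 0) = 0 := by
        linear_combination (Ja - Ia) 0 * h3 - (Jb - Ib) 0 * h2
      rcases mul_eq_zero.mp this with h | h
      · exact h
      · exact absurd h hpar
    apply hcon
    rw [hb0, hb1]; ring
  have hbab : ev b.x Ia * ev b.x Ja < 0 := by
    rw [hτ, ev_add_smul, lin_sub] at hCb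
    have e1 : τ * ev b.x Ja = -(1 - τ) * ev b.x Ia := by linarith
    have e2 : τ * (ev b.x Ia * ev b.x Ja) = -((1 - τ) * (ev b.x Ia) ^ 2) := by
      linear_combination ev b.x Ia * e1
    have e3 : 0 < (1 - τ) * (ev b.x Ia) ^ 2 := by
      have : 0 < (ev b.x Ia) ^ 2 := by positivity
      have : 0 < 1 - τ := by linarith
      positivity
    by_contra hcon
    push Not at hcon
    have := mul_nonneg hτ0.le hcon
    linarith
  -- chord c
  have hCIa : ev a.x Ia = 0 := by rw [hax, ev_cov_left]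
  have hCJa : ev a.x Ja = 0 := by rw [hax, ev_cov_right]
  have hbIb : ev b.x Ib = 0 := by rw [hbx, ev_cov_left]
  have hbJb : ev b.x Jb = 0 := by rw [hbx, ev_cov_right]
  have hJaC : Ja - C ≠ 0 := by
    intro h
    have : C = Ja := (sub_eq_zero.mp h).symm
    exact frontier_notMem hK hJaf (this ▸ hCK)
  have hIaC : Ia - C ≠ 0 := by
    intro h
    have : C = Ia := (sub_eq_zero.mp h).symm
    exact frontier_notMem hK hIaf (this ▸ hCK)
  have hindep3 : (Ja - C) 0 * (Jb - C) 1 - (Ja - C) 1 * (Jb - C) 0 ≠ 0 := by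
    apply lin_indep_of (u := a.x) _ hJaC
    · rw [lin_sub, hCa]; linarith
    · rw [lin_sub, hCJa, hCa]; ring
  have hindep4 : (Ia - C) 0 * (Ib - C) 1 - (Ia - C) 1 * (Ib - C) 0 ≠ 0 := by
    apply lin_indep_of (u := a.x) _ hIaC
    · rw [lin_sub, hCa]; linarith
    · rw [lin_sub, hCIa, hCa]; ring
  -- the line of the poles of a and b
  set κ : Cov := ![a.P 1 * b.P 2 - a.P 2 * b.P 1, a.P 2 * b.P 0 - a.P 0 * b.P 2,
    a.P 0 * b.P 1 - a.P 1 * b.P 0] with hκ
  have hκ0 : κ ≠ 0 := by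
    intro h
    have k0 : a.P 1 * b.P 2 - a.P 2 * b.P 1 = 0 := congrFun h 0
    have k1 : a.P 2 * b.P 0 - a.P 0 * b.P 2 = 0 := congrFun h 1
    have k2 : a.P 0 * b.P 1 - a.P 1 * b.P 0 = 0 := congrFun h 2
    have hα := a.P_α
    have hne : dot a.α b.P ≠ 0 := by
      rw [b.dot_P]
      have := det_support hK hIaf.1 hIbf.1 hJbf.1 hαa hαb hβb hneIaIb hneB hneIaJb.symm
      intro h0
      have h0' : det3 αa αb βb = 0 := h0
      rw [h0', zero_mul] at this
      exact lt_irrefl _ this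
    unfold dot at hα hne
    apply hPa
    ext i
    fin_cases i
    · have : (a.α 0 * b.P 0 + a.α 1 * b.P 1 + a.α 2 * b.P 2) * a.P 0 = 0 := by
        linear_combination b.P 0 * hα + a.α 1 * k2 - a.α 2 * k1
      rcases mul_eq_zero.mp this with h | h
      · exact absurd h hne
      · exact h
    · have : (a.α 0 * b.P 0 + a.α 1 * b.P 1 + a.α 2 * b.P 2) * a.P 1 = 0 := by
        linear_combination b.P 1 * hα - a.α 0 * k2 + a.α 2 * k0
      rcases mul_eq_zero.mp this with h | h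
      · exact absurd h hne
      · exact h
    · have : (a.α 0 * b.P 0 + a.α 1 * b.P 1 + a.α 2 * b.P 2) * a.P 2 = 0 := by
        linear_combination b.P 2 * hα + a.α 0 * k1 - a.α 1 * k0
      rcases mul_eq_zero.mp this with h | h
      · exact absurd h hne
      · exact h
  obtain ⟨Ic, hIcf, hIcb, s5, t5, hs5, ht5, hIc⟩ := sector hK hCK hindep3
    (hcor.union (excl_support hK hκ0))
  simp only [Set.mem_union, not_or] at hIcb
  obtain ⟨hIcs, hIck⟩ := hIcb
  obtain ⟨αc, hαc⟩ := exists_support hK hIcf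
  have hIca : ev a.x Ic < 0 := by
    have e : ev a.x Ic = t5 * ev a.x Jb := by
      rw [hIc, ev_add_smul, ev_add_smul, lin_sub, lin_sub, hCJa, hCa]; ring
    rw [e]
    exact mul_neg_of_pos_of_neg ht5 hJba
  have hIcb' : ev b.x Ic = s5 * ev b.x Ja := by
    rw [hIc, ev_add_smul, ev_add_smul, lin_sub, lin_sub, hbJb, hCb]; ring
  have hneIaIc : Ia ≠ Ic := by
    intro h; rw [← h, hCIa] at hIca; exact lt_irrefl _ hIca
  have hbJa : ev b.x Ja ≠ 0 := by
    intro h; rw [h, mul_zero] at hbab; exact lt_irrefl _ hbab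
  have hneIbIc : Ib ≠ Ic := by
    intro h
    rw [← h, hbIb] at hIcb'
    rcases mul_eq_zero.mp hIcb'.symm with h' | h'
    · linarith
    · exact hbJa h'
  have bad3 : ¬ ∃ k : ℝ, hom C = k • hom Ic := by
    rintro ⟨k, hk⟩
    have h2 := congrFun hk 2
    have h0 := congrFun hk 0
    have h1 := congrFun hk 1
    simp at h0 h1 h2
    rw [← h2] at h0 h1
    apply frontier_notMem hK hIcf
    have : Ic = C := by
      ext i; fin_cases i
      · simp [h0]
      · simp [h1]
    rw [this]; exact hCK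
  have bad4 : ¬ ∃ k : ℝ, a.P = k • hom Ic := by
    rintro ⟨k, hk⟩
    have h1 := a.P_α
    rw [hk] at h1
    have h2 : dot a.α (k • hom Ic) = k * ev a.α Ic := by
      rw [← dot_hom]; unfold dot; simp; ring
    rw [h2] at h1
    have h3 := hαa.pos hK hIaf.1 hIcf.1 hneIaIc.symm
    rcases mul_eq_zero.mp h1 with h | h
    · apply hPa; rw [hk, h, zero_smul]
    · exact absurd h h3.ne'
  have hPb := b.P_ne hK
  have bad5 : ¬ ∃ k : ℝ, b.P = k • hom Ic := by
    rintro ⟨k, hk⟩
    have h1 := b.P_α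
    rw [hk] at h1
    have h2 : dot b.α (k • hom Ic) = k * ev b.α Ic := by
      rw [← dot_hom]; unfold dot; simp; ring
    rw [h2] at h1
    have h3 := hαb.pos hK hIbf.1 hIcf.1 hneIbIc.symm
    rcases mul_eq_zero.mp h1 with h | h
    · apply hPb; rw [hk, h, zero_smul]
    · exact absurd h h3.ne'
  have bad6 : ¬ ∃ k : ℝ, a.x = k • αc := by
    rintro ⟨k, hk⟩
    have h1 : ev a.x C = k * ev αc C := by rw [hk]; simp [ev]; ring
    rw [hCa] at h1
    rcases mul_eq_zero.mp h1.symm with h | h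
    · apply cov_ne_zero hneA; rw [← hax, hk, h, zero_smul]
    · exact absurd h (hαc.2 C hCK).ne'
  have bad7 : ¬ ∃ k : ℝ, b.x = k • αc := by
    rintro ⟨k, hk⟩
    have h1 : ev b.x C = k * ev αc C := by rw [hk]; simp [ev]; ring
    rw [hCb] at h1
    rcases mul_eq_zero.mp h1.symm with h | h
    · apply cov_ne_zero hneB; rw [← hbx, hk, h, zero_smul]
    · exact absurd h (hαc.2 C hCK).ne'
  have bad8 : ¬ ∃ k : ℝ, κ = k • αc := by
    rintro ⟨k, hk⟩
    exact hIck ⟨hIcf, αc, hαc, k, hk⟩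
  obtain ⟨Jc, hJcf, hJcb, s6, t6, hs6, ht6, hJc⟩ := sector hK hCK hindep4
    ((((((hcor.union (excl_line hK hIcf bad3)).union (excl_line hK hIcf bad4)).union
      (excl_line hK hIcf bad5)).union (excl_tangent hK hIcf hαc bad6)).union
      (excl_tangent hK hIcf hαc bad7)).union (excl_tangent hK hIcf hαc bad8))
  simp only [Set.mem_union, not_or] at hJcb
  obtain ⟨⟨⟨⟨⟨⟨hJcs, hJc3⟩, hJc4⟩, hJc5⟩, hJc6⟩, hJc7⟩, hJc8⟩ := hJcb
  have hJca : 0 < ev a.x Jc := by
    have e : ev a.x Jc = t6 * ev a.x Ib := by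
      rw [hJc, ev_add_smul, ev_add_smul, lin_sub, lin_sub, hCIa, hCa]; ring
    rw [e]
    exact mul_pos ht6 hIba
  have hJcb' : ev b.x Jc = s6 * ev b.x Ia := by
    rw [hJc, ev_add_smul, ev_add_smul, lin_sub, lin_sub, hbIb, hCb]; ring
  have hneC : Ic ≠ Jc := by
    intro h; rw [← h] at hJca; linarith
  obtain ⟨βc, hβc⟩ := exists_support hK hJcf
  let c : SChord K := ⟨Ic, Jc, αc, βc, smooth_of _ hIcf hIcs, smooth_of _ hJcf hJcs, hneC, hαc, hβc⟩
  have hcx : c.x = cov Ic Jc := rfl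
  obtain ⟨B, hBK, hBc, hBa⟩ := exists_cross hK hIcf hJcf hneC
    (mul_neg_of_neg_of_pos hIca hJca)
  obtain ⟨A, hAK, hAc, hAb⟩ := exists_cross hK hIcf hJcf hneC (u := b.x) (by
    rw [hIcb', hJcb']
    have : s5 * ev b.x Ja * (s6 * ev b.x Ia) = (s5 * s6) * (ev b.x Ia * ev b.x Ja) := by ring
    rw [this]
    exact mul_neg_of_pos_of_neg (mul_pos hs5 hs6) hbab)
  have hcC : ev c.x C ≠ 0 := by
    intro h
    apply hJc3
    refine ⟨hJcf, hneC.symm, ?_⟩
    rw [← dot_cov, dot_hom]; exact h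
  have hD : det3 a.x b.x c.x ≠ 0 := by
    have hdC : det3 a.x b.x c.x = ev c.x C * (a.x 0 * b.x 1 - a.x 1 * b.x 0) := by
      unfold ev at hCa hCb ⊢
      unfold det3
      linear_combination (b.x 0 * c.x 1 - b.x 1 * c.x 0) * hCa +
        (-(a.x 0 * c.x 1) + a.x 1 * c.x 0) * hCb
    rw [hdC]
    exact mul_ne_zero hcC hδab
  refine ⟨a, b, c, A, B, C, ⟨hAK, hBK, hCK, hAb, hAc, hBa, hBc, hCa, hCb, hD⟩, nz1, nz2,
    ?_, ?_, ?_, ?_, ?_⟩
  · intro h
    apply hJc4
    refine ⟨hJcf, hneC.symm, ?_⟩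
    rw [← dot_cov]; exact h
  · intro h
    apply hJc5
    refine ⟨hJcf, hneC.symm, ?_⟩
    rw [← dot_cov]; exact h
  · intro h
    apply hJc6
    refine ⟨hJcf, hneC.symm, βc, hβc, ?_⟩
    rw [c.dot_P] at h
    exact h
  · intro h
    apply hJc7
    refine ⟨hJcf, hneC.symm, βc, hβc, ?_⟩
    rw [c.dot_P] at h
    exact h
  · intro h
    apply hJc8
    refine ⟨hJcf, hneC.symm, βc, hβc, ?_⟩
    have e : dot κ c.P = 0 := by
      rw [← h]
      simp [dot, det3, hκ]; ring
    rw [c.dot_P] at e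
    exact e

end Pool.Agent.Helper78.HP
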