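import Pool.Agent.Helper78.HP.Exit

/-! # Covectors, support lines, smooth boundary points -/

open scoped Affine Topology

namespace Pool.Agent.Helper78.HP

variable {K : Set Plane}

/-- Covectors of affine functionals of the plane. -/
abbrev Cov := Fin 3 → ℝ

/-- The affine functional with covector `u`. -/
def ev (u : Cov) (p : Plane) : ℝ := u 0 * p 0 + u 1 * p 1 + u 2

/-- Its linear part. -/
def lin (u : Cov) (v : Plane) : ℝ := u 0 * v 0 + u 1 * v 1

theorem ev_add_smul (u : Cov) (p v : Plane) (t : ℝ) :
    ev u (p + t • v) = ev u p + t * lin u v := by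
  simp [ev, lin]; ring

theorem lin_sub (u : Cov) (p q : Plane) : lin u (p - q) = ev u p - ev u q := by
  simp [ev, lin]; ring

theorem lin_smul (u : Cov) (v : Plane) (t : ℝ) : lin u (t • v) = t * lin u v := by
  simp [lin]; ring

theorem lin_add (u : Cov) (v w : Plane) : lin u (v + w) = lin u v + lin u w := by
  simp [lin]; ring

theorem continuous_ev (u : Cov) : Continuous (ev u) := by
  unfold ev; fun_prop

theorem continuous_lin (u : Cov) : Continuous (lin u) := by
  unfold lin; fun_prop

/-- homogeneous coordinates -/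
def hom (p : Plane) : Fin 3 → ℝ := ![p 0, p 1, 1]

@[simp] theorem hom_zero (p : Plane) : hom p 0 = p 0 := rfl
@[simp] theorem hom_one (p : Plane) : hom p 1 = p 1 := rfl
@[simp] theorem hom_two (p : Plane) : hom p 2 = 1 := rfl

/-- 3 by 3 determinant. -/
def det3 (u v w : Fin 3 → ℝ) : ℝ :=
  u 0 * (v 1 * w 2 - v 2 * w 1) - u 1 * (v 0 * w 2 - v 2 * w 0) + u 2 * (v 0 * w 1 - v 1 * w 0)

/-- A support functional of `K` at `z`. -/
def IsSupport (K : Set Plane) (z : Plane) (u : Cov) : Prop :=
  ev u z = 0 ∧ ∀ p ∈ K, 0 < ev u p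

/-- A smooth boundary point: the support functional is unique up to positive factors. -/
def IsSmooth (K : Set Plane) (z : Plane) : Prop :=
  z ∈ frontier K ∧ ∀ u w, IsSupport K z u → IsSupport K z w → ∃ c : ℝ, 0 < c ∧ w = c • u

theorem plane_eq_combo (v : Plane) :
    v = v 0 • (EuclideanSpace.single 0 1 : Plane) + v 1 • (EuclideanSpace.single 1 1 : Plane) := by
  ext i; fin_cases i <;> simp

theorem clm_eq (f : Plane →L[ℝ] ℝ) (v : Plane) :
    f v = v 0 * f (EuclideanSpace.single 0 1) + v 1 * f (EuclideanSpace.single 1 1) := by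
  conv_lhs => rw [plane_eq_combo v]
  simp

theorem exists_support (hK : IsHilbertDomain K) {z : Plane} (hz : z ∈ frontier K) :
    ∃ u, IsSupport K z u := by
  obtain ⟨f, hf⟩ := geometric_hahn_banach_open_point hK.convex hK.isOpen (frontier_notMem hK hz)
  refine ⟨![-f (EuclideanSpace.single 0 1), -f (EuclideanSpace.single 1 1), f z], ?_, ?_⟩
  · simp only [ev]
    have := clm_eq f z
    simp
    linarith
  · intro p hp
    have h1 := clm_eq f p
    have h2 := hf p hp
    simp only [ev]
    simp
    linarith

theorem IsSupport.nonneg {z : Plane} {u : Cov} (h : IsSupport K z u) {p : Plane}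
    (hp : p ∈ closure K) : 0 ≤ ev u p := by
  have : p ∈ closure (ev u ⁻¹' Set.Ici 0) :=
    closure_mono (fun q hq => (h.2 q hq).le) hp
  rwa [(isClosed_Ici.preimage (continuous_ev u)).closure_eq] at this

theorem IsSupport.pos (hK : IsHilbertDomain K) {z : Plane} {u : Cov} (h : IsSupport K z u)
    (hz : z ∈ closure K) {p : Plane} (hp : p ∈ closure K) (hne : p ≠ z) : 0 < ev u p := by
  have hm := strict_seg hK hz hp (Ne.symm hne) (t := 1 / 2) (by norm_num) (by norm_num)
  have h1 := h.2 _ hm
  rw [ev_add_smul, lin_sub, h.1] at h1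
  linarith

theorem IsSupport.lin_ne (hK : IsHilbertDomain K) {z : Plane} {u : Cov} (h : IsSupport K z u) :
    ¬ (u 0 = 0 ∧ u 1 = 0) := by
  rintro ⟨h0, h1⟩
  obtain ⟨p, hp⟩ := hK.nonempty
  have h2 := h.2 p hp
  have h3 := h.1
  simp only [ev, h0, h1] at h2 h3
  linarith

theorem IsSupport.ne_zero (hK : IsHilbertDomain K) {z : Plane} {u : Cov} (h : IsSupport K z u) :
    u ≠ 0 := by
  intro h0
  apply h.lin_ne hK
  subst h0
  simp

/-- At a smooth point, all directions on the inner side of the support line point into `K`. -/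
theorem IsSmooth.inward (hK : IsHilbertDomain K) {z : Plane} (hs : IsSmooth K z) {u : Cov}
    (hu : IsSupport K z u) {v : Plane} (hv : 0 < lin u v) :
    ∃ t : ℝ, 0 < t ∧ z + t • v ∈ K := by
  by_contra hcon
  push Not at hcon
  have hconv : Convex ℝ {p : Plane | ∃ t : ℝ, 0 < t ∧ p = z + t • v} := by
    rintro _ ⟨t, ht, rfl⟩ _ ⟨s, hs, rfl⟩ a b ha hb hab
    refine ⟨a * t + b * s, ?_, ?_⟩
    · rcases eq_or_lt_of_le ha with h | h
      · subst h
        have : b = 1 := by linarith
        subst this; linarith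
      · have : 0 ≤ b * s := mul_nonneg hb hs.le
        have : 0 < a * t := mul_pos h ht
        linarith
    · have : z = (a + b) • z := by rw [hab, one_smul]
      conv_rhs => rw [this]
      module
  have hdisj : Disjoint K {p : Plane | ∃ t : ℝ, 0 < t ∧ p = z + t • v} := by
    rw [Set.disjoint_left]
    rintro p hp ⟨t, ht, rfl⟩
    exact hcon t ht hp
  obtain ⟨f, c, hf1, hf2⟩ := geometric_hahn_banach_open hK.convex hK.isOpen hconv hdisj
  have hfz : f z ≤ c := by
    have : z ∈ closure (f ⁻¹' Set.Iic c) := closure_mono (fun q hq => (hf1 q hq).le) hs.1.1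
    rwa [(isClosed_Iic.preimage f.continuous).closure_eq] at this
  have hfc : ∀ t : ℝ, 0 < t → c ≤ f z + t * f v := by
    intro t ht
    have := hf2 (z + t • v) ⟨t, ht, rfl⟩
    simpa using this
  have hcz : c ≤ f z := by
    by_contra hlt
    push Not at hlt
    by_cases hfv : f v ≤ 0
    · have := hfc 1 one_pos
      linarith
    · push Not at hfv
      have := hfc ((c - f z) / (2 * f v)) (by apply div_pos <;> linarith)
      have e : (c - f z) / (2 * f v) * f v = (c - f z) / 2 := by field_simp
      rw [e] at this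
      linarith
  have hw : IsSupport K z ![-f (EuclideanSpace.single 0 1), -f (EuclideanSpace.single 1 1), f z] := by
    constructor
    · have := clm_eq f z
      simp [ev]
      linarith
    · intro p hp
      have h1 := clm_eq f p
      have h2 := hf1 p hp
      simp [ev]
      linarith
  obtain ⟨k, hk, hkw⟩ := hs.2 _ _ hu hw
  have h0 := congrFun hkw 0
  have h1 := congrFun hkw 1
  simp at h0 h1
  have h2 := clm_eq f v
  have h3 : f v = -(k * lin u v) := by
    rw [h2]; unfold lin
    have e0 : f (EuclideanSpace.single 0 1) = -(k * u 0) := by linarith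
    have e1 : f (EuclideanSpace.single 1 1) = -(k * u 1) := by linarith
    rw [e0, e1]; ring
  have h4 := hfc 1 one_pos
  have h5 : 0 < k * lin u v := mul_pos hk hv
  linarith

/-- The determinant of the matrix of values of three functionals at three points. -/
theorem det_ev (u v w : Cov) (x y z : Plane) :
    det3 u v w * det3 (hom x) (hom y) (hom z) =
      det3 ![ev u x, ev u y, ev u z] ![ev v x, ev v y, ev v z] ![ev w x, ev w y, ev w z] := by
  simp [det3, ev]
  ring

theorem det_support (hK : IsHilbertDomain K) {x y z : Plane} {u v w : Cov}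
    (hx : x ∈ closure K) (hy : y ∈ closure K) (hz : z ∈ closure K)
    (hu : IsSupport K x u) (hv : IsSupport K y v) (hw : IsSupport K z w)
    (hxy : x ≠ y) (hyz : y ≠ z) (hzx : z ≠ x) :
    det3 u v w * det3 (hom x) (hom y) (hom z) > 0 := by
  have h1 := hu.pos hK hx hy hxy.symm
  have h2 := hu.pos hK hx hz hzx
  have h3 := hv.pos hK hy hx hxy
  have h4 := hv.pos hK hy hz hyz.symm
  have h5 := hw.pos hK hz hx hzx.symm
  have h6 := hw.pos hK hz hy hyz
  rw [det_ev, hu.1, hv.1, hw.1]
  simp [det3]
  have p1 : 0 < ev u y * (ev v z * ev w x) := by positivity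
  have p2 : 0 < ev u z * (ev v x * ev w y) := by positivity
  linarith

/-- Non-smooth boundary points are countable. -/
theorem countable_corners (hK : IsHilbertDomain K) :
    {z | z ∈ frontier K ∧ ¬ IsSmooth K z}.Countable := by
  have key : ∀ z : Plane, ∃ O : Set Plane, (z ∈ frontier K ∧ ¬ IsSmooth K z) →
      IsOpen O ∧ O.Nonempty ∧ ∀ x ∈ O, ∀ p ∈ K, x 0 * z 0 + x 1 * z 1 < x 0 * p 0 + x 1 * p 1 := by
    intro z
    by_cases hz : z ∈ frontier K ∧ ¬ IsSmooth K z
    swap
    · exact ⟨∅, fun h => absurd h hz⟩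
    obtain ⟨hzf, hns⟩ := hz
    unfold IsSmooth at hns
    push Not at hns
    obtain ⟨u, w, hu, hw, hne⟩ := hns hzf
    have hd : u 0 * w 1 - u 1 * w 0 ≠ 0 := by
      intro hd
      have hl := hu.lin_ne hK
      -- w = c • u
      have : ∃ c : ℝ, w 0 = c * u 0 ∧ w 1 = c * u 1 := by
        by_cases h0 : u 0 = 0
        · have h1 : u 1 ≠ 0 := fun h => hl ⟨h0, h⟩
          refine ⟨w 1 / u 1, ?_, ?_⟩
          · have : u 1 * w 0 = 0 := by rw [h0] at hd; linarith
            have h3 : w 0 = 0 := by
              rcases mul_eq_zero.mp this with h | h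
              · exact absurd h h1
              · exact h
            rw [h0, h3]; ring
          · field_simp
        · refine ⟨w 0 / u 0, ?_, ?_⟩
          · field_simp
          · field_simp
            linarith
      obtain ⟨c, hc0, hc1⟩ := this
      have hc2 : w 2 = c * u 2 := by
        have e1 := hu.1
        have e2 := hw.1
        simp only [ev] at e1 e2
        rw [hc0, hc1] at e2
        linear_combination e2 - c * e1
      have hwc : w = c • u := by
        ext i; fin_cases i <;> simp [hc0, hc1, hc2]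
      obtain ⟨p, hp⟩ := hK.nonempty
      have e1 := hu.2 p hp
      have e2 := hw.2 p hp
      have e3 : ev w p = c * ev u p := by
        rw [hwc]; simp [ev]; ring
      rw [e3] at e2
      have hcpos : 0 < c := by
        by_contra hcon
        push Not at hcon
        have := mul_nonpos_of_nonpos_of_nonneg hcon e1.le
        linarith
      exact hne c hcpos hwc
    refine ⟨{x : Plane | 0 < (u 0 * x 1 - u 1 * x 0) / (u 0 * w 1 - u 1 * w 0) ∧
      0 < (x 0 * w 1 - x 1 * w 0) / (u 0 * w 1 - u 1 * w 0)}, fun _ => ⟨?_, ?_, ?_⟩⟩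
    · have i1 : IsOpen {x : Plane | 0 < (u 0 * x 1 - u 1 * x 0) / (u 0 * w 1 - u 1 * w 0)} :=
        isOpen_lt continuous_const (by fun_prop)
      have i2 : IsOpen {x : Plane | 0 < (x 0 * w 1 - x 1 * w 0) / (u 0 * w 1 - u 1 * w 0)} :=
        isOpen_lt continuous_const (by fun_prop)
      exact i1.inter i2
    · refine ⟨!₂[u 0 + w 0, u 1 + w 1], ?_, ?_⟩
      · simp
        rw [show u 0 * (u 1 + w 1) - u 1 * (u 0 + w 0) = u 0 * w 1 - u 1 * w 0 by ring, div_self hd]
        norm_num
      · simp
        rw [show (u 0 + w 0) * w 1 - (u 1 + w 1) * w 0 = u 0 * w 1 - u 1 * w 0 by ring, div_self hd]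
        norm_num
    · rintro x ⟨hs, ht⟩ p hp
      set s := (u 0 * x 1 - u 1 * x 0) / (u 0 * w 1 - u 1 * w 0) with hs'
      set t := (x 0 * w 1 - x 1 * w 0) / (u 0 * w 1 - u 1 * w 0) with ht'
      have e0 : x 0 = s * w 0 + t * u 0 := by
        rw [hs', ht']; field_simp; ring
      have e1 : x 1 = s * w 1 + t * u 1 := by
        rw [hs', ht']; field_simp; ring
      have a1 := hu.1
      have a2 := hw.1
      have a3 := hu.2 p hp
      have a4 := hw.2 p hp
      have a5 : 0 < s * ev w p := mul_pos hs a4
      have a6 : 0 < t * ev u p := mul_pos ht a3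
      simp only [ev] at a1 a2 a5 a6
      rw [e0, e1]
      nlinarith
  choose O hO using key
  apply Set.PairwiseDisjoint.countable_of_isOpen (s := O)
  · intro z hz z' hz' hne
    obtain ⟨-, -, h1⟩ := hO z hz
    obtain ⟨-, -, h2⟩ := hO z' hz'
    rw [Function.onFun, Set.disjoint_left]
    intro x hx hx'
    have g1 := h1 x hx
    have g2 := h2 x hx'
    have hm := strict_seg hK hz.1.1 hz'.1.1 hne (t := 1 / 2) (by norm_num) (by norm_num)
    have k1 := g1 _ hm
    have k2 := g2 _ hm
    simp at k1 k2
    linarith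
  · intro z hz; exact (hO z hz).1
  · intro z hz; exact (hO z hz).2.1

end Pool.Agent.Helper78.HP
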