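import Pool.Agent.Helper78.HP.Select

/-! # Smooth boundary points lie on a conic -/

open scoped Affine Topology
open Filter

namespace Pool.Agent.Helper78.HP

variable {K : Set Plane}

theorem avoid' {E : ℝ → Plane} {a b : ℝ} (hE : Set.InjOn E (Set.Ioo a b)) {Bad : Set Plane}
    (hB : Bad.Countable) (hab : a < b) : ∃ s ∈ Set.Ioo a b, E s ∉ Bad := by
  have hc : {s | s ∈ Set.Ioo a b ∧ E s ∈ Bad}.Countable := by
    apply Set.MapsTo.countable_of_injOn (f := E) (t := Bad)
    · intro s hs; exact hs.2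
    · exact hE.mono (fun s hs => hs.1)
    · exact hB
  obtain ⟨s, hs1, hs2⟩ := (hc.dense_compl ℝ).exists_mem_open isOpen_Ioo (Set.nonempty_Ioo.mpr hab)
  exact ⟨s, hs2, fun h => hs1 ⟨hs2, h⟩⟩

/-- A chord in general position with respect to a base triangle, crossing its sides in `K`. -/
structure ValidW (K : Set Plane) (a b c w : SChord K) (A B C : Plane) : Prop where
  wa : ∃ W ∈ K, ev w.x W = 0 ∧ ev a.x W = 0
  wb : ∃ W ∈ K, ev w.x W = 0 ∧ ev b.x W = 0
  wc : ∃ W ∈ K, ev w.x W = 0 ∧ ev c.x W = 0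
  hA : ev w.x A ≠ 0
  hB : ev w.x B ≠ 0
  hC : ev w.x C ≠ 0

theorem ValidW.rot {a b c w : SChord K} {A B C : Plane} (h : ValidW K a b c w A B C) :
    ValidW K b c a w B C A := ⟨h.wb, h.wc, h.wa, h.hB, h.hC, h.hA⟩

theorem ValidW.rot' {a b c w : SChord K} {A B C : Plane} (h : ValidW K b c a w B C A) :
    ValidW K a b c w A B C := ⟨h.wc, h.wa, h.wb, h.hC, h.hA, h.hB⟩

theorem delta_ne {a b c : SChord K} {A B C : Plane} (h : Tri K a b c A B C) :
    a.x 0 * b.x 1 - a.x 1 * b.x 0 ≠ 0 := by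
  intro h0
  apply h.hD
  have e1 := h.haC
  have e2 := h.hbC
  unfold ev at e1 e2
  unfold det3
  linear_combination (b.x 0 * c.x 1 - b.x 1 * c.x 0) * e1 +
    (-(a.x 0 * c.x 1) + a.x 1 * c.x 0) * e2 + (c.x 0 * C 0 + c.x 1 * C 1 + c.x 2) * h0

theorem valid_relation (hK : IsHilbertDomain K) (h : RevAltHyp K) {a b c w : SChord K}
    {A B C : Plane} (hT : Tri K a b c A B C) (hw : ValidW K a b c w A B C) :
    dot b.x w.P * dot w.x a.P * dot a.x b.P = dot a.x w.P * dot b.x a.P * dot w.x b.P := by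
  obtain ⟨Wa, hWa, h1, h2⟩ := hw.wa
  obtain ⟨Wb, hWb, h3, h4⟩ := hw.wb
  apply chasles' hK h w a b hT.hC hWb hWa hT.haC hT.hbC h3 h4 h1 h2
  have hd : det3 w.x a.x b.x = ev w.x C * (a.x 0 * b.x 1 - a.x 1 * b.x 0) := by
    have e1 := hT.haC
    have e2 := hT.hbC
    unfold ev at e1 e2 ⊢
    unfold det3
    linear_combination (b.x 0 * w.x 1 - b.x 1 * w.x 0) * e1 +
      (-(a.x 0 * w.x 1) + a.x 1 * w.x 0) * e2
  rw [hd]
  exact mul_ne_zero hw.hC (delta_ne hT)

/-- Existence of valid chords through a boundary point, one vertex case. -/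
theorem exists_valid_aux (hK : IsHilbertDomain K) {a b c : SChord K}
    {A B C : Plane} (hT : Tri K a b c A B C) {I : Plane} {t : Cov} (hI : IsSmooth K I)
    (ht : IsSupport K I t) (hIa : ev a.x I ≠ 0) (hIb : ev b.x I ≠ 0) (hIc : ev c.x I ≠ 0)
    (hsgn : 0 < (ev b.x I / ev b.x B) * (ev c.x I / ev c.x C)) :
    ∃ w1 w2 : SChord K, w1.I = I ∧ w1.α = t ∧ w2.I = I ∧ w2.α = t ∧
      ValidW K a b c w1 A B C ∧ ValidW K a b c w2 A B C ∧
      w1.x 0 * w2.x 1 - w1.x 1 * w2.x 0 ≠ 0 := by
  have hAne := hT.evA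
  have hBne := hT.evB
  have hCne := hT.evC
  have hcor := countable_corners hK
  have hAI : A ≠ I := fun h => frontier_notMem hK hI.1 (h ▸ hT.hA)
  set n : Plane := !₂[-((A - I) 1), (A - I) 0] with hn
  have hn0 : n 0 = -((A - I) 1) := rfl
  have hn1 : n 1 = (A - I) 0 := rfl
  have hindep : (A - I) 0 * n 1 - (A - I) 1 * n 0 ≠ 0 := by
    rw [hn0, hn1]
    intro h0
    apply hAI
    have e0 : (A - I) 0 = 0 := by nlinarith [sq_nonneg ((A - I) 0), sq_nonneg ((A - I) 1)]
    have e1 : (A - I) 1 = 0 := by nlinarith [sq_nonneg ((A - I) 0), sq_nonneg ((A - I) 1)]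
    have : A - I = 0 := by
      ext i; fin_cases i
      · simpa using e0
      · simpa using e1
    exact sub_eq_zero.mp this
  -- barycentric coordinates
  set lA := ev a.x I / ev a.x A with hlA
  set lB := ev b.x I / ev b.x B with hlB
  set lC := ev c.x I / ev c.x C with hlC
  have hbary : lA + lB + lC = 1 ∧ I = lA • A + lB • B + lC • C := by
    -- coordinates from the determinant
    have fD : det3 a.x b.x c.x ≠ 0 := hT.hD
    have key : ∀ u : Cov, lA * ev u A + lB * ev u B + lC * ev u C = ev u I := by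
      intro u
      have c1 := cramer_dot a.x b.x c.x u (hom A)
      have c2 := cramer_dot a.x b.x c.x u (hom B)
      have c3 := cramer_dot a.x b.x c.x u (hom C)
      have c4 := cramer_dot a.x b.x c.x u (hom I)
      rw [dot_comm _ u, dot_comm _ a.x, dot_comm _ b.x, dot_comm _ c.x, dot_hom, dot_hom, dot_hom,
        dot_hom] at c1 c2 c3 c4
      rw [hT.hbA, hT.hcA] at c1
      rw [hT.haB, hT.hcB] at c2
      rw [hT.haC, hT.hbC] at c3
      have e1 : lA * ev a.x A = ev a.x I := by rw [hlA]; field_simp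
      have e2 : lB * ev b.x B = ev b.x I := by rw [hlB]; field_simp
      have e3 : lC * ev c.x C = ev c.x I := by rw [hlC]; field_simp
      apply mul_left_cancel₀ fD
      linear_combination lA * c1 + lB * c2 + lC * c3 - c4 + det3 u b.x c.x * e1 +
        det3 a.x u c.x * e2 + det3 a.x b.x u * e3
    have k2 := key ![0, 0, 1]
    have k0 := key ![1, 0, 0]
    have k1 := key ![0, 1, 0]
    simp [ev] at k0 k1 k2
    refine ⟨k2, ?_⟩
    ext i; fin_cases i
    · simp; linarith
    · simp; linarith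
  obtain ⟨hsum, hIeq⟩ := hbary
  have hσ : lB + lC ≠ 0 := by
    intro h0
    have : lC = -lB := by linarith
    rw [this] at hsgn
    nlinarith [mul_self_nonneg lB]
  have hxne : ev a.x I - ev a.x A ≠ 0 := by
    have e1 : ev a.x I = lA * ev a.x A := by rw [hlA]; field_simp
    have : ev a.x I - ev a.x A = -(lB + lC) * ev a.x A := by
      rw [e1]; linear_combination ev a.x A * hsum
    rw [this]
    exact mul_ne_zero (neg_ne_zero.mpr hσ) hAne
  -- point on BC
  have hDK : I + (ev a.x I / (ev a.x I - ev a.x A)) • (A - I) ∈ K := by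
    have e1 : ev a.x I = lA * ev a.x A := by rw [hlA]; field_simp
    have e2 : ev a.x I / (ev a.x I - ev a.x A) = -(lA / (lB + lC)) := by
      have : ev a.x I - ev a.x A = -(lB + lC) * ev a.x A := by
        rw [e1]; linear_combination ev a.x A * hsum
      rw [this, e1]; field_simp
    have hpos : 0 < lB / (lB + lC) ∧ 0 < lC / (lB + lC) := by
      rcases (mul_pos_iff.mp hsgn) with ⟨h1, h2⟩ | ⟨h1, h2⟩
      · exact ⟨div_pos h1 (by linarith), div_pos h2 (by linarith)⟩
      · exact ⟨div_pos_of_neg_of_neg h1 (by linarith), div_pos_of_neg_of_neg h2 (by linarith)⟩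
    have hmem := hK.convex hT.hB hT.hC hpos.1.le hpos.2.le (by field_simp)
    convert hmem using 1
    rw [e2]
    have hA' : lA = 1 - (lB + lC) := by linarith
    have e3 : I - lA • A = lB • B + lC • C := by
      conv_lhs => rw [hIeq]
      module
    have e4 : (lB / (lB + lC)) • B + (lC / (lB + lC)) • C =
        (1 / (lB + lC)) • (lB • B + lC • C) := by
      rw [smul_add, smul_smul, smul_smul]
      congr 2 <;> ring
    rw [e4, ← e3]
    have e5 : I + -(lA / (lB + lC)) • (A - I) = (1 + lA / (lB + lC)) • I - (lA / (lB + lC)) • A := by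
      module
    have e6 : 1 + lA / (lB + lC) = 1 / (lB + lC) := by
      rw [eq_div_iff hσ, add_mul, div_mul_cancel₀ _ hσ]; linarith
    rw [e5, e6, smul_sub, smul_smul]
    congr 2
    ring
  -- perturbation
  have evx : ∀ (u : Cov) (s : ℝ), ev u (A + s • n) = ev u A + s * lin u n :=
    fun u s => ev_add_smul u A n s
  have cA : ContinuousAt (fun s : ℝ => A + s • n) 0 := by fun_prop
  have c1 : ContinuousAt (fun s : ℝ => I + (ev a.x I / (ev a.x I - (ev a.x A + s * lin a.x n))) •
      (A + s • n - I)) 0 := by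
    have : ContinuousAt (fun s : ℝ => ev a.x I / (ev a.x I - (ev a.x A + s * lin a.x n))) 0 := by
      apply ContinuousAt.div (by fun_prop) (by fun_prop)
      simpa using hxne
    fun_prop
  have c2 : ContinuousAt (fun s : ℝ => I + (ev b.x I / (ev b.x I - (ev b.x A + s * lin b.x n))) •
      (A + s • n - I)) 0 := by
    have : ContinuousAt (fun s : ℝ => ev b.x I / (ev b.x I - (ev b.x A + s * lin b.x n))) 0 := by
      apply ContinuousAt.div (by fun_prop) (by fun_prop)
      simpa [hT.hbA] using hIb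
    fun_prop
  have c3 : ContinuousAt (fun s : ℝ => I + (ev c.x I / (ev c.x I - (ev c.x A + s * lin c.x n))) •
      (A + s • n - I)) 0 := by
    have : ContinuousAt (fun s : ℝ => ev c.x I / (ev c.x I - (ev c.x A + s * lin c.x n))) 0 := by
      apply ContinuousAt.div (by fun_prop) (by fun_prop)
      simpa [hT.hcA] using hIc
    fun_prop
  have E0 : ∀ᶠ s in 𝓝 (0 : ℝ), A + s • n ∈ K :=
    cA.eventually (hK.isOpen.mem_nhds (by simpa using hT.hA))
  have E1 : ∀ᶠ s in 𝓝 (0 : ℝ), I + (ev a.x I / (ev a.x I - (ev a.x A + s * lin a.x n))) •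
      (A + s • n - I) ∈ K :=
    c1.eventually (hK.isOpen.mem_nhds (by simpa using hDK))
  have E2 : ∀ᶠ s in 𝓝 (0 : ℝ), I + (ev b.x I / (ev b.x I - (ev b.x A + s * lin b.x n))) •
      (A + s • n - I) ∈ K :=
    c2.eventually (hK.isOpen.mem_nhds (by
      simp only [hT.hbA, zero_mul, add_zero, zero_smul, sub_zero]
      rw [div_self hIb]
      simpa using hT.hA))
  have E3 : ∀ᶠ s in 𝓝 (0 : ℝ), I + (ev c.x I / (ev c.x I - (ev c.x A + s * lin c.x n))) •
      (A + s • n - I) ∈ K :=
    c3.eventually (hK.isOpen.mem_nhds (by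
      simp only [hT.hcA, zero_mul, add_zero, zero_smul, sub_zero]
      rw [div_self hIc]
      simpa using hT.hA))
  have F1 : ∀ᶠ s in 𝓝 (0 : ℝ), ev a.x I - (ev a.x A + s * lin a.x n) ≠ 0 :=
    (by fun_prop : ContinuousAt (fun s : ℝ => ev a.x I - (ev a.x A + s * lin a.x n)) 0).eventually_ne
      (by simpa using hxne)
  have F2 : ∀ᶠ s in 𝓝 (0 : ℝ), ev b.x I - (ev b.x A + s * lin b.x n) ≠ 0 :=
    (by fun_prop : ContinuousAt (fun s : ℝ => ev b.x I - (ev b.x A + s * lin b.x n)) 0).eventually_ne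
      (by simpa [hT.hbA] using hIb)
  have F3 : ∀ᶠ s in 𝓝 (0 : ℝ), ev c.x I - (ev c.x A + s * lin c.x n) ≠ 0 :=
    (by fun_prop : ContinuousAt (fun s : ℝ => ev c.x I - (ev c.x A + s * lin c.x n)) 0).eventually_ne
      (by simpa [hT.hcA] using hIc)
  -- the perturbed line misses B and C
  have hIAB : ev (cov I A) B ≠ 0 := by
    intro h0
    -- B on line IA, so I on line AB
    obtain ⟨k, hk⟩ := (ev_cov_iff hAI.symm B).mp h0
    have h1 := hT.hcB
    rw [hk, ev_add_smul, lin_sub, hT.hcA] at h1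
    have h2 : (1 - k) * ev c.x I = 0 := by linarith
    rcases mul_eq_zero.mp h2 with h3 | h3
    · have : k = 1 := by linarith
      rw [this, one_smul] at hk
      have : B = A := by rw [hk]; abel
      exact hAne (this ▸ hT.haB)
    · exact hIc h3
  have hIAC : ev (cov I A) C ≠ 0 := by
    intro h0
    obtain ⟨k, hk⟩ := (ev_cov_iff hAI.symm C).mp h0
    have h1 := hT.hbC
    rw [hk, ev_add_smul, lin_sub, hT.hbA] at h1
    have h2 : (1 - k) * ev b.x I = 0 := by linarith
    rcases mul_eq_zero.mp h2 with h3 | h3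
    · have : k = 1 := by linarith
      rw [this, one_smul] at hk
      have : C = A := by rw [hk]; abel
      exact hAne (this ▸ hT.haC)
    · exact hIb h3
  have evcov : ∀ (p : Plane) (s : ℝ), ev (cov I (A + s • n)) p =
      ev (cov I A) p + s * (-(n 1) * (p 0 - I 0) + n 0 * (p 1 - I 1)) := by
    intro p s
    rw [ev_cov, ev_cov]; simp; ring
  have G1 : ∀ᶠ s in 𝓝 (0 : ℝ), ev (cov I (A + s • n)) B ≠ 0 := by
    simp only [evcov]
    exact (by fun_prop : ContinuousAt (fun s : ℝ => ev (cov I A) B +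
      s * (-(n 1) * (B 0 - I 0) + n 0 * (B 1 - I 1))) 0).eventually_ne (by simpa using hIAB)
  have G2 : ∀ᶠ s in 𝓝 (0 : ℝ), ev (cov I (A + s • n)) C ≠ 0 := by
    simp only [evcov]
    exact (by fun_prop : ContinuousAt (fun s : ℝ => ev (cov I A) C +
      s * (-(n 1) * (C 0 - I 0) + n 0 * (C 1 - I 1))) 0).eventually_ne (by simpa using hIAC)
  have all := E0.and (E1.and (E2.and (E3.and (F1.and (F2.and (F3.and (G1.and G2)))))))
  rw [Metric.eventually_nhds_iff] at all
  obtain ⟨ε, hε, hall⟩ := all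
  have hall' : ∀ s ∈ Set.Ioo (0 : ℝ) ε, _ := fun s hs => hall (y := s) (by
    rw [Real.dist_eq, sub_zero, abs_of_pos hs.1]; exact hs.2)
  -- the other endpoint
  let E : ℝ → Plane := fun s => A + s • n + exitTime K (A + s • n) (A + s • n - I) • (A + s • n - I)
  have hne : ∀ s : ℝ, A + s • n - I ≠ 0 := by
    intro s h
    have : (1 : ℝ) • (A - I) + s • n = (0 : ℝ) • (A - I) + (0 : ℝ) • n := by
      rw [one_smul, zero_smul, zero_smul, add_zero, ← h]; abel
    have := (eq_of_indep hindep this).1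
    norm_num at this
  have hEeq : ∀ s, E s = I + (1 + exitTime K (A + s • n) (A + s • n - I)) • (A + s • n - I) := by
    intro s; simp only [E]; module
  have hTpos : ∀ s ∈ Set.Ioo (0 : ℝ) ε, 0 < exitTime K (A + s • n) (A + s • n - I) := by
    intro s hs
    exact exitTime_pos hK (hne s) (hall' s hs).1
  have hinj : Set.InjOn E (Set.Ioo 0 ε) := by
    intro s hs s' hs' hss
    rw [hEeq, hEeq] at hss
    have h1 := add_left_cancel hss
    have p1 := hTpos s hs
    have p2 := hTpos s' hs'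
    have r1 : (1 + exitTime K (A + s • n) (A + s • n - I)) • (A + s • n - I) =
        (1 + exitTime K (A + s • n) (A + s • n - I)) • (A - I) +
        ((1 + exitTime K (A + s • n) (A + s • n - I)) * s) • n := by module
    have r2 : (1 + exitTime K (A + s' • n) (A + s' • n - I)) • (A + s' • n - I) =
        (1 + exitTime K (A + s' • n) (A + s' • n - I)) • (A - I) +
        ((1 + exitTime K (A + s' • n) (A + s' • n - I)) * s') • n := by module
    rw [r1, r2] at h1
    obtain ⟨e1, e2⟩ := eq_of_indep hindep h1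
    rw [e1] at e2
    exact mul_left_cancel₀ (by linarith) e2
  have mk : ∀ s ∈ Set.Ioo (0 : ℝ) ε, E s ∉ {z | z ∈ frontier K ∧ ¬ IsSmooth K z} →
      ∃ w : SChord K, w.I = I ∧ w.α = t ∧ ValidW K a b c w A B C ∧
        ∃ k : ℝ, k ≠ 0 ∧ w.x = k • cov I (A + s • n) := by
    intro s hs hgood
    obtain ⟨g0, g1, g2, g3, f1, f2, f3, b1, b2⟩ := hall' s hs
    have hEf : E s ∈ frontier K := exit_mem_frontier hK (hne s) g0
    have hEs : IsSmooth K (E s) := by
      by_contra hcon; exact hgood ⟨hEf, hcon⟩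
    obtain ⟨β, hβ⟩ := exists_support hK hEf
    have hT1 := hTpos s hs
    have hk : (1 + exitTime K (A + s • n) (A + s • n - I)) ≠ 0 := by linarith
    have hIE : I ≠ E s := by
      intro h
      rw [hEeq] at h
      have : (1 + exitTime K (A + s • n) (A + s • n - I)) • (A + s • n - I) = 0 := by
        simpa using h.symm
      rcases smul_eq_zero.mp this with h' | h'
      · exact hk h'
      · exact hne s h'
    let w : SChord K := ⟨I, E s, t, β, hI, hEs, hIE, ht, hβ⟩
    have hwx : w.x = (1 + exitTime K (A + s • n) (A + s • n - I)) • cov I (A + s • n) := by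
      have : w.x = cov I (E s) := rfl
      rw [this, hEeq]
      ext i; fin_cases i
      · simp [cov]; ring
      · simp [cov]
      · simp [cov]; ring
    have hev : ∀ p, ev w.x p =
        (1 + exitTime K (A + s • n) (A + s • n - I)) * ev (cov I (A + s • n)) p := by
      intro p; rw [hwx]; simp [ev]; ring
    have hIAs : I ≠ A + s • n := fun h => hne s (by rw [← h, sub_self])
    have cross : ∀ u : Cov, ev u I - (ev u A + s * lin u n) ≠ 0 →
        ev w.x (I + (ev u I / (ev u I - (ev u A + s * lin u n))) • (A + s • n - I)) = 0 ∧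
        ev u (I + (ev u I / (ev u I - (ev u A + s * lin u n))) • (A + s • n - I)) = 0 := by
      intro u hu
      constructor
      · rw [hev, (ev_cov_iff hIAs _).mpr ⟨_, rfl⟩, mul_zero]
      · rw [ev_add_smul, lin_sub, evx]
        have : ev u A + s * lin u n - ev u I = -(ev u I - (ev u A + s * lin u n)) := by ring
        rw [this, mul_neg, div_mul_cancel₀ _ hu]; ring
    refine ⟨w, rfl, rfl, ⟨?_, ?_, ?_, ?_, ?_, ?_⟩, _, hk, hwx⟩
    · exact ⟨_, g1, cross a.x f1⟩
    · exact ⟨_, g2, cross b.x f2⟩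
    · exact ⟨_, g3, cross c.x f3⟩
    · rw [hev]
      apply mul_ne_zero hk
      rw [evcov, ev_cov_right, zero_add]
      apply mul_ne_zero hs.1.ne'
      intro h0; apply hindep
      simp only [PiLp.sub_apply] at h0 ⊢
      linarith
    · rw [hev]; exact mul_ne_zero hk b1
    · rw [hev]; exact mul_ne_zero hk b2
  have hhalf1 : (0 : ℝ) < ε / 2 := by linarith
  obtain ⟨s1, hs1, hb1⟩ := avoid' (a := 0) (b := ε / 2)
    (hinj.mono (Set.Ioo_subset_Ioo le_rfl (by linarith))) hcor hhalf1
  obtain ⟨s2, hs2, hb2⟩ := avoid' (a := ε / 2) (b := ε)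
    (hinj.mono (Set.Ioo_subset_Ioo (by linarith) le_rfl)) hcor (by linarith)
  obtain ⟨w1, e11, e12, v1, k1, hk1, hx1⟩ := mk s1 ⟨hs1.1, by linarith [hs1.2]⟩ hb1
  obtain ⟨w2, e21, e22, v2, k2, hk2, hx2⟩ := mk s2 ⟨by linarith [hs2.1], hs2.2⟩ hb2
  refine ⟨w1, w2, e11, e12, e21, e22, v1, v2, ?_⟩
  have hprod : w1.x 0 * w2.x 1 - w1.x 1 * w2.x 0 =
      (k1 * k2 * (s2 - s1)) * ((A - I) 0 * n 1 - (A - I) 1 * n 0) := by
    rw [hx1, hx2]; simp [cov]; ring
  rw [hprod]
  apply mul_ne_zero _ hindep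
  apply mul_ne_zero (mul_ne_zero hk1 hk2)
  have := hs1.2
  have := hs2.1
  linarith

theorem exists_valid (hK : IsHilbertDomain K) {a b c : SChord K}
    {A B C : Plane} (hT : Tri K a b c A B C) {I : Plane} {t : Cov} (hI : IsSmooth K I)
    (ht : IsSupport K I t) (hIa : ev a.x I ≠ 0) (hIb : ev b.x I ≠ 0) (hIc : ev c.x I ≠ 0) :
    ∃ w1 w2 : SChord K, w1.I = I ∧ w1.α = t ∧ w2.I = I ∧ w2.α = t ∧
      ValidW K a b c w1 A B C ∧ ValidW K a b c w2 A B C ∧
      w1.x 0 * w2.x 1 - w1.x 1 * w2.x 0 ≠ 0 := by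
  have nA : ev a.x I / ev a.x A ≠ 0 := div_ne_zero hIa hT.evA
  have nB : ev b.x I / ev b.x B ≠ 0 := div_ne_zero hIb hT.evB
  have nC : ev c.x I / ev c.x C ≠ 0 := div_ne_zero hIc hT.evC
  have pigeon : 0 < (ev b.x I / ev b.x B) * (ev c.x I / ev c.x C) ∨
      0 < (ev c.x I / ev c.x C) * (ev a.x I / ev a.x A) ∨
      0 < (ev a.x I / ev a.x A) * (ev b.x I / ev b.x B) := by
    generalize ev a.x I / ev a.x A = x at nA ⊢
    generalize ev b.x I / ev b.x B = y at nB ⊢
    generalize ev c.x I / ev c.x C = z at nC ⊢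
    rcases lt_or_gt_of_ne nA with h1 | h1 <;> rcases lt_or_gt_of_ne nB with h2 | h2 <;>
      rcases lt_or_gt_of_ne nC with h3 | h3
    · left; exact mul_pos_of_neg_of_neg h2 h3
    · right; right; exact mul_pos_of_neg_of_neg h1 h2
    · right; left; exact mul_pos_of_neg_of_neg h3 h1
    · left; exact mul_pos h2 h3
    · left; exact mul_pos_of_neg_of_neg h2 h3
    · right; left; exact mul_pos h3 h1
    · right; right; exact mul_pos h1 h2
    · left; exact mul_pos h2 h3
  rcases pigeon with h | h | h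
  · exact exists_valid_aux hK hT hI ht hIa hIb hIc h
  · obtain ⟨w1, w2, e1, e2, e3, e4, v1, v2, hd⟩ := exists_valid_aux hK hT.rot hI ht hIb hIc hIa h
    exact ⟨w1, w2, e1, e2, e3, e4, v1.rot', v2.rot', hd⟩
  · obtain ⟨w1, w2, e1, e2, e3, e4, v1, v2, hd⟩ :=
      exists_valid_aux hK hT.rot.rot hI ht hIc hIa hIb h
    exact ⟨w1, w2, e1, e2, e3, e4, v1.rot'.rot', v2.rot'.rot', hd⟩

end Pool.Agent.Helper78.HP
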